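import Pool.Agent.H7Z.WR.Basic

set_option autoImplicit false

namespace Pool.Agent.H7Z.WR

open Finset
open scoped Classical

theorem homog_of_card_le_two {V : Type} [DecidableEq V] (G : SimpleGraph V) (a b : V) :
    Homog G ({a, b} : Finset V) := by
  by_cases h : G.Adj a b
  · left
    intro x hx y hy hxy
    simp only [coe_insert, coe_singleton, Set.mem_insert_iff, Set.mem_singleton_iff] at hx hy
    rcases hx with rfl | rfl <;> rcases hy with rfl | rfl
    · exact absurd rfl hxy
    · exact h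
    · exact h.symm
    · exact absurd rfl hxy
  · right
    intro x hx y hy hxy
    simp only [coe_insert, coe_singleton, Set.mem_insert_iff, Set.mem_singleton_iff] at hx hy
    rcases hx with rfl | rfl <;> rcases hy with rfl | rfl
    · exact absurd rfl hxy
    · exact h
    · exact fun h' => h h'.symm
    · exact absurd rfl hxy

theorem homog_of_card_le_one {V : Type} (G : SimpleGraph V) (U : Finset V) (hU : U.card ≤ 1) :
    Homog G U := by
  left
  intro x hx y hy hxy
  exact absurd (Finset.card_le_one.1 hU x hx y hy) hxy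

/-- The Alon–Pach–Solymosi substitution argument, relative to a hereditary class. -/
theorem good_module {P : PClass} (hP : Down P) {Ω : Type} (L : SimpleGraph Ω) (X M : Finset Ω)
    (m : Ω) (hm : m ∈ M)
    (hmod : ∀ x ∈ X, x ∉ M → ∀ a ∈ M, (L.Adj a x ↔ L.Adj m x))
    (h1 : Good P L (insert m (X \ M))) (h2 : Good P L M) : Good P L X := by
  obtain ⟨d1, hd1⟩ := h1
  obtain ⟨d2, hd2⟩ := h2
  set Y := insert m (X \ M) with hY
  refine ⟨d2 + (d1 + 1) * Y.card + d1 + 1, fun n G U hU => ?_⟩
  obtain ⟨hPU, hXU⟩ := hU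
  by_cases hU1 : U.card ≤ 1
  · refine ⟨U, Subset.refl _, homog_of_card_le_one G U hU1, ?_⟩
    exact Nat.le_self_pow (by omega) _
  obtain ⟨s, hs, hmax⟩ := exists_max_image (U.powerset.filter (Homog G)) Finset.card
    ⟨∅, mem_filter.2 ⟨by simp, Or.inl (by simp)⟩⟩
  obtain ⟨hsU, hsH⟩ := mem_filter.1 hs
  refine ⟨s, mem_powerset.1 hsU, hsH, ?_⟩
  have hmax' : ∀ t ⊆ U, Homog G t → t.card ≤ s.card := fun t ht hH =>
    hmax t (mem_filter.2 ⟨mem_powerset.2 ht, hH⟩)
  set h := s.card with hh
  have h2h : 2 ≤ h := by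
    obtain ⟨a, ha, b, hb, hab⟩ := one_lt_card.1 (show 1 < U.card by omega)
    have := hmax' {a, b} (by
      intro x hx
      rcases mem_insert.1 hx with rfl | hx
      · exact ha
      · rw [mem_singleton.1 hx]; exact hb) (homog_of_card_le_two G a b)
    rwa [card_pair hab] at this
  have hY1 : ∀ U' ⊆ U, ¬ Cont G U' L Y → U'.card ≤ h ^ d1 := by
    intro U' hU' hc
    obtain ⟨t, ht, htH, htc⟩ := hd1 n G U' ⟨hP n G U U' hU' hPU, hc⟩
    exact htc.trans (Nat.pow_le_pow_left (hmax' t (ht.trans hU') htH) _)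
  have hM1 : ∀ U' ⊆ U, ¬ Cont G U' L M → U'.card ≤ h ^ d2 := by
    intro U' hU' hc
    obtain ⟨t, ht, htH, htc⟩ := hd2 n G U' ⟨hP n G U U' hU' hPU, hc⟩
    exact htc.trans (Nat.pow_le_pow_left (hmax' t (ht.trans hU') htH) _)
  by_cases hsmall : U.card ≤ h ^ d1
  · exact hsmall.trans (Nat.pow_le_pow_right (by omega) (by omega))
  have hmY : m ∈ Y := mem_insert_self _ _
  let Q : (Y → Fin n) → Prop := fun g => (∀ a, g a ∈ U) ∧ Function.Injective g ∧
    ∀ a b : Y, (G.Adj (g a) (g b) ↔ L.Adj a b)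
  have key := count_ext Q U ⟨m, hmY⟩ (h ^ d1 + 1) (h ^ d2) (fun g hg => hg.2.1) ?_ (by omega) ?_
  · rw [Fintype.card_coe] at key
    have hr : h ^ d1 + 1 ≤ h ^ (d1 + 1) := by
      have : 1 ≤ h ^ d1 := Nat.one_le_pow _ _ (by omega)
      rw [pow_succ]; nlinarith
    calc U.card ≤ h ^ d2 * (h ^ d1 + 1) ^ Y.card := key
      _ ≤ h ^ d2 * (h ^ (d1 + 1)) ^ Y.card :=
        Nat.mul_le_mul_left _ (Nat.pow_le_pow_left hr _)
      _ = h ^ (d2 + (d1 + 1) * Y.card) := by rw [← pow_mul, ← pow_add]
      _ ≤ _ := Nat.pow_le_pow_right (by omega) (by omega)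
  · intro R hR hRc
    have : Cont G R L Y := by
      by_contra hc
      have := hY1 R hR hc
      omega
    obtain ⟨f, hf⟩ := this
    refine ⟨fun a => f a, ⟨fun a => hR (hf.1 a a.2), fun a b hab => ?_, fun a b => ?_⟩,
      fun a => hf.1 a a.2⟩
    · exact Subtype.ext (hf.2.1 a a.2 b b.2 hab)
    · exact hf.2.2 a a.2 b b.2
  · intro g hg E hEU hE0
    apply hM1 _ hEU
    rintro ⟨f2, hf2⟩
    apply hXU
    have hYx : ∀ x ∈ X, x ∉ M → x ∈ Y := fun x hx hxM =>
      mem_insert_of_mem (mem_sdiff.2 ⟨hx, hxM⟩)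
    have hne : ∀ x (hx : x ∈ Y), x ∉ M → (⟨x, hx⟩ : Y) ≠ ⟨m, hmY⟩ := by
      intro x hx hxM e
      apply hxM
      have : x = m := congrArg Subtype.val e
      rw [this]; exact hm
    let f : Ω → Fin n := fun x => if x ∈ M then f2 x else if hx : x ∈ Y then g ⟨x, hx⟩ else f2 x
    have fM : ∀ x ∈ M, f x = f2 x := fun x hx => by simp [f, hx]
    have fX : ∀ x (hx : x ∈ Y), x ∉ M → f x = g ⟨x, hx⟩ := fun x hx hxM => by simp [f, hx, hxM]
    have hE : ∀ a ∈ M, f2 a ∈ U ∧ ∃ g', Q g' ∧ g' ⟨m, hmY⟩ = f2 a ∧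
        ∀ b, b ≠ ⟨m, hmY⟩ → g' b = g b := by
      intro a ha
      exact ⟨hEU (hf2.1 a ha), hE0 _ (hf2.1 a ha)⟩
    have cross : ∀ a ∈ M, ∀ x ∈ X, x ∉ M → f a ≠ f x ∧ (G.Adj (f a) (f x) ↔ L.Adj a x) := by
      intro a ha x hx hxM
      have hxY := hYx x hx hxM
      obtain ⟨-, g', hQ, e1, e2⟩ := hE a ha
      rw [fM a ha, fX x hxY hxM]
      constructor
      · intro e
        apply hne x hxY hxM
        apply hQ.2.1
        rw [e1, e2 _ (hne x hxY hxM)]
        exact e.symm
      · have := hQ.2.2 ⟨m, hmY⟩ ⟨x, hxY⟩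
        rw [e1, e2 _ (hne x hxY hxM)] at this
        rw [this, hmod x hx hxM a ha]
    refine ⟨f, fun a ha => ?_, fun a ha b hb hab => ?_, fun a ha b hb => ?_⟩
    · by_cases haM : a ∈ M
      · rw [fM a haM]; exact (hE a haM).1
      · rw [fX a (hYx a ha haM) haM]; exact hg.1 _
    · by_cases haM : a ∈ M <;> by_cases hbM : b ∈ M
      · rw [fM a haM, fM b hbM] at hab
        exact hf2.2.1 a haM b hbM hab
      · exact absurd hab (cross a haM b hb hbM).1
      · exact absurd hab.symm (cross b hbM a ha haM).1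
      · rw [fX a (hYx a ha haM) haM, fX b (hYx b hb hbM) hbM] at hab
        exact congrArg Subtype.val (hg.2.1 hab)
    · by_cases haM : a ∈ M <;> by_cases hbM : b ∈ M
      · rw [fM a haM, fM b hbM]
        exact hf2.2.2 a haM b hbM
      · exact (cross a haM b hb hbM).2
      · rw [G.adj_comm, L.adj_comm]
        exact (cross b hbM a ha haM).2
      · rw [fX a (hYx a ha haM) haM, fX b (hYx b hb hbM) hbM]
        exact hg.2.2 _ _

/-- A pure pair of linear size. -/
def PurePair {V : Type} (G : SimpleGraph V) (U : Finset V) (q : ℕ) : Prop :=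
  ∃ A ⊆ U, ∃ B ⊆ U, Disjoint A B ∧ U.card ≤ q * A.card ∧ U.card ≤ q * B.card ∧
    ((∀ a ∈ A, ∀ b ∈ B, G.Adj a b) ∨ (∀ a ∈ A, ∀ b ∈ B, ¬ G.Adj a b))

theorem eh_of_pure {P : PClass} (hP : Down P) (q : ℕ)
    (h : ∀ n G U, P n G U → 2 ≤ U.card → PurePair G U q) : EH P := by
  have main : ∀ n G (N : ℕ) U, U.card = N → P n G U → ∃ s ⊆ U, ∃ t ⊆ U,
      G.IsClique (s : Set (Fin n)) ∧ G.IsIndepSet (t : Set (Fin n)) ∧
      U.card ≤ (s.card * t.card) ^ (q + 1) := by
    intro n G N
    induction N using Nat.strong_induction_on with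
    | _ N ih =>
      intro U hUN hPU
      by_cases hU1 : U.card ≤ 1
      · refine ⟨U, Subset.refl _, U, Subset.refl _, ?_, ?_, ?_⟩
        · intro x hx y hy hxy
          exact absurd (Finset.card_le_one.1 hU1 x hx y hy) hxy
        · intro x hx y hy hxy
          exact absurd (Finset.card_le_one.1 hU1 x hx y hy) hxy
        · rcases Nat.le_one_iff_eq_zero_or_eq_one.1 hU1 with e | e <;> simp [e]
      obtain ⟨A, hA, B, hB, hAB, hAc, hBc, hpure⟩ := h n G U hPU (by omega)
      have hApos : 0 < A.card := by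
        rcases Nat.eq_zero_or_pos A.card with e | e
        · rw [e] at hAc; omega
        · exact e
      have hBpos : 0 < B.card := by
        rcases Nat.eq_zero_or_pos B.card with e | e
        · rw [e] at hBc; omega
        · exact e
      have hsum : A.card + B.card ≤ U.card := by
        rw [← card_union_of_disjoint hAB]
        exact card_le_card (union_subset hA hB)
      obtain ⟨sA, hsA, tA, htA, hcA, hiA, hA'⟩ := ih A.card (by omega) A rfl (hP _ _ _ _ hA hPU)
      obtain ⟨sB, hsB, tB, htB, hcB, hiB, hB'⟩ := ih B.card (by omega) B rfl (hP _ _ _ _ hB hPU)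
      have fin : ∀ p : ℕ, sA.card * tA.card + sB.card * tB.card ≤ p → U.card ≤ p ^ (q + 1) := by
        intro p hp
        have hq : q ≤ 2 ^ (q + 1) := by
          have := Nat.lt_two_pow_self (n := q)
          rw [pow_succ]; omega
        rcases le_total (sA.card * tA.card) (sB.card * tB.card) with hle | hle
        · calc U.card ≤ q * A.card := hAc
            _ ≤ 2 ^ (q + 1) * (sA.card * tA.card) ^ (q + 1) := Nat.mul_le_mul hq hA'
            _ = (2 * (sA.card * tA.card)) ^ (q + 1) := by rw [← mul_pow]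
            _ ≤ p ^ (q + 1) := Nat.pow_le_pow_left (by omega) _
        · calc U.card ≤ q * B.card := hBc
            _ ≤ 2 ^ (q + 1) * (sB.card * tB.card) ^ (q + 1) := Nat.mul_le_mul hq hB'
            _ = (2 * (sB.card * tB.card)) ^ (q + 1) := by rw [← mul_pow]
            _ ≤ p ^ (q + 1) := Nat.pow_le_pow_left (by omega) _
      rcases hpure with hp | hp
      · have hcl : G.IsClique ((sA ∪ sB : Finset (Fin n)) : Set (Fin n)) := by
          intro x hx y hy hxy
          simp only [coe_union, Set.mem_union, mem_coe] at hx hy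
          rcases hx with hx | hx <;> rcases hy with hy | hy
          · exact hcA hx hy hxy
          · exact hp x (hsA hx) y (hsB hy)
          · exact (hp y (hsA hy) x (hsB hx)).symm
          · exact hcB hx hy hxy
        have hcard : (sA ∪ sB).card = sA.card + sB.card :=
          card_union_of_disjoint (Disjoint.mono hsA hsB hAB)
        have hsub : sA ∪ sB ⊆ U := union_subset (hsA.trans hA) (hsB.trans hB)
        rcases le_total tA.card tB.card with hle | hle
        · refine ⟨sA ∪ sB, hsub, tB, htB.trans hB, hcl, hiB, fin _ ?_⟩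
          rw [hcard]; nlinarith
        · refine ⟨sA ∪ sB, hsub, tA, htA.trans hA, hcl, hiA, fin _ ?_⟩
          rw [hcard]; nlinarith
      · have hcl : G.IsIndepSet ((tA ∪ tB : Finset (Fin n)) : Set (Fin n)) := by
          intro x hx y hy hxy
          simp only [coe_union, Set.mem_union, mem_coe] at hx hy
          rcases hx with hx | hx <;> rcases hy with hy | hy
          · exact hiA hx hy hxy
          · exact hp x (htA hx) y (htB hy)
          · exact fun h' => hp y (htA hy) x (htB hx) h'.symm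
          · exact hiB hx hy hxy
        have hcard : (tA ∪ tB).card = tA.card + tB.card :=
          card_union_of_disjoint (Disjoint.mono htA htB hAB)
        have hsub : tA ∪ tB ⊆ U := union_subset (htA.trans hA) (htB.trans hB)
        rcases le_total sA.card sB.card with hle | hle
        · refine ⟨sB, hsB.trans hB, tA ∪ tB, hsub, hcB, hcl, fin _ ?_⟩
          rw [hcard]; nlinarith
        · refine ⟨sA, hsA.trans hA, tA ∪ tB, hsub, hcA, hcl, fin _ ?_⟩
          rw [hcard]; nlinarith
  refine ⟨2 * (q + 1), fun n G U hPU => ?_⟩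
  obtain ⟨s, hs, t, ht, hc, hi, hle⟩ := main n G _ U rfl hPU
  rcases le_total s.card t.card with h' | h'
  · refine ⟨t, ht, Or.inr hi, hle.trans ?_⟩
    rw [pow_mul]
    exact Nat.pow_le_pow_left (by nlinarith) _
  · refine ⟨s, hs, Or.inl hc, hle.trans ?_⟩
    rw [pow_mul]
    exact Nat.pow_le_pow_left (by nlinarith) _

end Pool.Agent.H7Z.WR
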