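import Pool.Agent.H7Z.WR.Defs

set_option autoImplicit false

namespace Pool.Agent.H7Z.WR

open Finset
open scoped Classical

section defs
variable {V Ω : Type}

def Homog (G : SimpleGraph V) (s : Finset V) : Prop :=
  G.IsClique (s : Set V) ∨ G.IsIndepSet (s : Set V)

def Copy (G : SimpleGraph V) (U : Finset V) (L : SimpleGraph Ω) (X : Finset Ω) (f : Ω → V) : Prop :=
  (∀ a ∈ X, f a ∈ U) ∧ (∀ a ∈ X, ∀ b ∈ X, f a = f b → a = b) ∧
    ∀ a ∈ X, ∀ b ∈ X, (G.Adj (f a) (f b) ↔ L.Adj a b)

def Cont (G : SimpleGraph V) (U : Finset V) (L : SimpleGraph Ω) (X : Finset Ω) : Prop :=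
  ∃ f, Copy G U L X f

theorem Copy.mono {G : SimpleGraph V} {U U' : Finset V} {L : SimpleGraph Ω} {X : Finset Ω}
    {f : Ω → V} (h : Copy G U L X f) (hU : U ⊆ U') : Copy G U' L X f :=
  ⟨fun a ha => hU (h.1 a ha), h.2.1, h.2.2⟩

theorem Cont.mono {G : SimpleGraph V} {U U' : Finset V} {L : SimpleGraph Ω} {X : Finset Ω}
    (h : Cont G U L X) (hU : U ⊆ U') : Cont G U' L X := by
  obtain ⟨f, hf⟩ := h
  exact ⟨f, hf.mono hU⟩

theorem Cont.trans {Ω' : Type} {G : SimpleGraph V} {U : Finset V} {L : SimpleGraph Ω}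
    {X : Finset Ω} {L' : SimpleGraph Ω'} {X' : Finset Ω'}
    (h : Cont G U L X) (h' : Cont L X L' X') : Cont G U L' X' := by
  obtain ⟨f, hf⟩ := h
  obtain ⟨g, hg⟩ := h'
  refine ⟨f ∘ g, fun a ha => hf.1 _ (hg.1 a ha), fun a ha b hb hab => ?_, fun a ha b hb => ?_⟩
  · exact hg.2.1 a ha b hb (hf.2.1 _ (hg.1 a ha) _ (hg.1 b hb) hab)
  · exact (hf.2.2 _ (hg.1 a ha) _ (hg.1 b hb)).trans (hg.2.2 a ha b hb)

theorem Copy.compl {G : SimpleGraph V} {U : Finset V} {L : SimpleGraph Ω} {X : Finset Ω}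
    {f : Ω → V} (h : Copy G U L X f) : Copy Gᶜ U Lᶜ X f := by
  refine ⟨h.1, h.2.1, fun a ha b hb => ?_⟩
  simp only [SimpleGraph.compl_adj]
  rw [h.2.2 a ha b hb]
  constructor
  · rintro ⟨h1, h2⟩
    exact ⟨fun e => h1 (by rw [e]), h2⟩
  · rintro ⟨h1, h2⟩
    exact ⟨fun e => h1 (h.2.1 a ha b hb e), h2⟩

theorem Cont.compl {G : SimpleGraph V} {U : Finset V} {L : SimpleGraph Ω} {X : Finset Ω}
    (h : Cont G U L X) : Cont Gᶜ U Lᶜ X := by
  obtain ⟨f, hf⟩ := h
  exact ⟨f, hf.compl⟩

end defs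

abbrev PClass : Type := ∀ n : ℕ, SimpleGraph (Fin n) → Finset (Fin n) → Prop

def Down (P : PClass) : Prop := ∀ n G U U', U' ⊆ U → P n G U → P n G U'

def EH (P : PClass) : Prop :=
  ∃ d : ℕ, ∀ n G U, P n G U → ∃ s ⊆ U, Homog G s ∧ U.card ≤ s.card ^ d

def Good (P : PClass) {Ω : Type} (L : SimpleGraph Ω) (X : Finset Ω) : Prop :=
  EH (fun n G U => P n G U ∧ ¬ Cont G U L X)

theorem Good.of_cont {P : PClass} {Ω Ω' : Type} {L : SimpleGraph Ω} {X : Finset Ω}
    {L' : SimpleGraph Ω'} {X' : Finset Ω'} (h : Good P L X) (h' : Cont L X L' X') :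
    Good P L' X' := by
  obtain ⟨d, hd⟩ := h
  exact ⟨d, fun n G U hU => hd n G U ⟨hU.1, fun hc => hU.2 (hc.trans h')⟩⟩

theorem good_small {P : PClass} {Ω : Type} (L : SimpleGraph Ω) (X : Finset Ω) (hX : X.card ≤ 1) :
    Good P L X := by
  refine ⟨1, fun n G U hU => ?_⟩
  rcases U.eq_empty_or_nonempty with h | ⟨v, hv⟩
  · subst h
    exact ⟨∅, by simp, Or.inl (by simp), by simp⟩
  · exfalso
    apply hU.2
    have hs := Finset.card_le_one.1 hX
    refine ⟨fun _ => v, fun _ _ => hv, fun a ha b hb _ => hs a ha b hb, fun a ha b hb => ?_⟩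
    rw [hs a ha b hb]
    simp

theorem choose_ratio (N r : ℕ) (hr : r ≤ N) :
    ∀ k ≤ r, (N - k).choose (r - k) * N ^ k ≤ N.choose r * r ^ k := by
  intro k
  induction k with
  | zero => simp
  | succ k ih =>
    intro hk
    have ih' := ih (by omega)
    obtain ⟨a, ha⟩ : ∃ a, r = k + 1 + a := ⟨r - (k + 1), by omega⟩
    obtain ⟨b, hb⟩ : ∃ b, N = r + b := ⟨N - r, by omega⟩
    have e1 : N - k = a + b + 1 := by omega
    have e2 : r - k = a + 1 := by omega
    have e3 : N - (k + 1) = a + b := by omega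
    have e4 : r - (k + 1) = a := by omega
    rw [e1, e2] at ih'
    rw [e3, e4]
    have h := Nat.add_one_mul_choose_eq (a + b) a
    have hpos : 0 < a + b + 1 := by omega
    have key : (a + b).choose a * N ≤ (a + b + 1).choose (a + 1) * r := by
      apply Nat.le_of_mul_le_mul_left _ hpos
      calc (a + b + 1) * ((a + b).choose a * N) = ((a + b + 1) * (a + b).choose a) * N := by ring
        _ = (a + b + 1).choose (a + 1) * ((a + 1) * N) := by rw [h]; ring
        _ ≤ (a + b + 1).choose (a + 1) * ((a + b + 1) * r) := by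
          apply Nat.mul_le_mul_left
          rw [hb]
          nlinarith
        _ = (a + b + 1) * ((a + b + 1).choose (a + 1) * r) := by ring
    calc (a + b).choose a * N ^ (k + 1) = ((a + b).choose a * N) * N ^ k := by ring
      _ ≤ ((a + b + 1).choose (a + 1) * r) * N ^ k := Nat.mul_le_mul_right _ key
      _ = ((a + b + 1).choose (a + 1) * N ^ k) * r := by ring
      _ ≤ (N.choose r * r ^ k) * r := Nat.mul_le_mul_right _ ih'
      _ = N.choose r * r ^ (k + 1) := by ring

theorem count_ext {V α : Type} [Fintype α] (Q : (α → V) → Prop) (U : Finset V)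
    (m : α) (r y : ℕ) (hinj : ∀ g, Q g → Function.Injective g)
    (hR : ∀ R ⊆ U, R.card = r → ∃ g, Q g ∧ ∀ a, g a ∈ R) (hr : r ≤ U.card)
    (hy0 : ∀ g, Q g → ∀ E ⊆ U, (∀ v ∈ E, ∃ g', Q g' ∧ g' m = v ∧ ∀ b, b ≠ m → g' b = g b) →
      E.card ≤ y) :
    U.card ≤ y * r ^ Fintype.card α := by
  have hy : ∀ g, Q g → (U.filter fun v => Q (Function.update g m v)).card ≤ y := by
    intro g hg
    refine hy0 g hg _ (filter_subset _ _) fun v hv => ⟨_, (mem_filter.1 hv).2, by simp, ?_⟩
    intro b hb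
    simp [hb]
  set N := U.card with hN
  set k := Fintype.card α with hk
  set Φ := (Fintype.piFinset fun _ : α => U).filter Q with hΦ
  obtain ⟨R0, hR0, hR0c⟩ := exists_subset_card_eq hr
  obtain ⟨g0, hg0, hg0R⟩ := hR R0 hR0 hR0c
  have hkr : k ≤ r := by
    rw [← hR0c, hk, ← Finset.card_univ, ← Finset.card_image_of_injective _ (hinj g0 hg0)]
    apply card_le_card
    intro v hv
    obtain ⟨a, -, rfl⟩ := mem_image.1 hv
    exact hg0R a
  have hNpos : 0 < N := card_pos.2 ⟨g0 m, hR0 (hg0R m)⟩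
  have h1 : N.choose r ≤ Φ.card * (N - k).choose (r - k) := by
    have hsub : U.powersetCard r ⊆
        Φ.biUnion fun g => (U.powersetCard r).filter (fun R => univ.image g ⊆ R) := by
      intro R hRm
      obtain ⟨hRU, hRc⟩ := mem_powersetCard.1 hRm
      obtain ⟨g, hg, hgR⟩ := hR R hRU hRc
      refine mem_biUnion.2 ⟨g, ?_, mem_filter.2 ⟨hRm, ?_⟩⟩
      · exact mem_filter.2 ⟨Fintype.mem_piFinset.2 fun a => hRU (hgR a), hg⟩
      · intro v hv
        obtain ⟨a, -, rfl⟩ := mem_image.1 hv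
        exact hgR a
    have := card_le_card hsub
    rw [card_powersetCard] at this
    refine this.trans (card_biUnion_le.trans ?_)
    rw [← smul_eq_mul]
    apply sum_le_card_nsmul
    intro g hg
    obtain ⟨hgU, hgQ⟩ := mem_filter.1 hg
    have hc : (univ.image g).card = k := by
      rw [card_image_of_injective _ (hinj g hgQ), card_univ]
    rw [card_filter_powersetCard_subset _ _ _ ?_ (by rw [hc]; exact hkr), hc]
    intro v hv
    obtain ⟨a, -, rfl⟩ := mem_image.1 hv
    exact Fintype.mem_piFinset.1 hgU a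
  have h2 : Φ.card * N ≤ y * N ^ k := by
    have := card_le_mul_card_image_of_maps_to
      (f := fun p : (α → V) × V => Function.update p.1 m p.2) (s := Φ ×ˢ U)
      (t := Fintype.piFinset fun _ : α => U) ?_ y ?_
    · rw [card_product, Fintype.card_piFinset, prod_const, card_univ] at this
      exact this
    · rintro ⟨g, u⟩ hp
      obtain ⟨hg, hu⟩ := mem_product.1 hp
      obtain ⟨hgU, -⟩ := mem_filter.1 hg
      refine Fintype.mem_piFinset.2 fun a => ?_
      by_cases ha : a = m
      · subst ha; simpa using hu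
      · simpa [Function.update_of_ne ha] using Fintype.mem_piFinset.1 hgU a
    · intro h _
      rcases ((Φ ×ˢ U).filter fun p : (α → V) × V =>
        Function.update p.1 m p.2 = h).eq_empty_or_nonempty with he | ⟨⟨g1, u1⟩, hp1⟩
      · rw [he]; simp
      · obtain ⟨hp1, e1⟩ := mem_filter.1 hp1
        obtain ⟨hg1, -⟩ := mem_product.1 hp1
        refine le_trans ?_ (hy g1 (mem_filter.1 hg1).2)
        apply card_le_card_of_injOn (fun p => p.1 m)
        · rintro ⟨g, u⟩ hp
          obtain ⟨hp, e⟩ := mem_filter.1 (mem_coe.1 hp)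
          obtain ⟨hg, -⟩ := mem_product.1 hp
          obtain ⟨hgU, hgQ⟩ := mem_filter.1 hg
          refine mem_coe.2 (mem_filter.2 ⟨Fintype.mem_piFinset.1 hgU m, ?_⟩)
          have : Function.update g1 m (g m) = g := by
            funext a
            by_cases ha : a = m
            · subst ha; simp
            · have e2 := congrFun (e.trans e1.symm) a
              simp only [Function.update_of_ne ha] at e2 ⊢
              exact e2.symm
          simpa [this] using hgQ
        · rintro ⟨g, u⟩ hp ⟨g', u'⟩ hp' hm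
          obtain ⟨-, e⟩ := mem_filter.1 (mem_coe.1 hp)
          obtain ⟨-, e'⟩ := mem_filter.1 (mem_coe.1 hp')
          have ee := e.trans e'.symm
          have hu : u = u' := by simpa using congrFun ee m
          have hg : g = g' := by
            funext a
            by_cases ha : a = m
            · subst ha; exact hm
            · simpa [Function.update_of_ne ha] using congrFun ee a
          rw [hu, hg]
  have h3 := choose_ratio N r hr k hkr
  have hc : 0 < N.choose r := Nat.choose_pos hr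
  have h4 : N ^ k ≤ Φ.card * r ^ k := by
    apply Nat.le_of_mul_le_mul_left _ hc
    calc N.choose r * N ^ k ≤ Φ.card * (N - k).choose (r - k) * N ^ k :=
          Nat.mul_le_mul_right _ h1
      _ = Φ.card * ((N - k).choose (r - k) * N ^ k) := by ring
      _ ≤ Φ.card * (N.choose r * r ^ k) := Nat.mul_le_mul_left _ h3
      _ = N.choose r * (Φ.card * r ^ k) := by ring
  have hp : 0 < N ^ k := pow_pos hNpos k
  apply Nat.le_of_mul_le_mul_left _ hp
  calc N ^ k * N ≤ Φ.card * r ^ k * N := Nat.mul_le_mul_right _ h4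
    _ = Φ.card * N * r ^ k := by ring
    _ ≤ y * N ^ k * r ^ k := Nat.mul_le_mul_right _ h2
    _ = N ^ k * (y * r ^ k) := by ring

end Pool.Agent.H7Z.WR
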