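import Pool.Agent.H7Z.WR.Comb

set_option autoImplicit false

namespace Pool.Agent.H7Z.WR

open Finset
open scoped Classical

variable {V Ω : Type}

theorem pair_lemma (G : SimpleGraph V) (L : SimpleGraph Ω) (e : ℕ) (he : 1 ≤ e) (v0 : V)
    (m : ℕ) (hm : 1 ≤ m) (X : Finset Ω) : ∀ (Vs : Ω → Finset V),
    (∀ a ∈ X, m * e ^ X.card ≤ (Vs a).card) →
    (∃ f : Ω → V, (∀ a ∈ X, f a ∈ Vs a) ∧
      ∀ a ∈ X, ∀ b ∈ X, a ≠ b → (G.Adj (f a) (f b) ↔ L.Adj a b)) ∨
    ∃ a ∈ X, ∃ b ∈ X, a ≠ b ∧ ∃ A ⊆ Vs a, ∃ B ⊆ Vs b, m ≤ X.card * A.card ∧ m ≤ B.card ∧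
      ((∀ v ∈ A, e * deg G v B ≤ B.card) ∨ (∀ v ∈ A, e * deg Gᶜ v B ≤ B.card)) := by
  induction X using Finset.induction_on with
  | empty => intro Vs _; exact Or.inl ⟨fun _ => v0, by simp, by simp⟩
  | insert a X haX ih =>
    intro Vs hVs
    rw [card_insert_of_notMem haX] at hVs ⊢
    have hme : m ≤ m * e ^ (X.card + 1) := Nat.le_mul_of_pos_right _ (by positivity)
    let S : V → Ω → Finset V := fun v b => (Vs b).filter fun u => (G.Adj v u ↔ L.Adj a b)
    by_cases hex : ∃ v ∈ Vs a, ∀ b ∈ X, (Vs b).card ≤ e * (S v b).card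
    · obtain ⟨v, hv, hvb⟩ := hex
      have hS : ∀ b ∈ X, m * e ^ X.card ≤ (S v b).card := by
        intro b hb
        have h1 := (hVs b (mem_insert_of_mem hb)).trans (hvb b hb)
        apply Nat.le_of_mul_le_mul_left _ (show 0 < e by omega)
        calc e * (m * e ^ X.card) = m * e ^ (X.card + 1) := by ring
          _ ≤ _ := h1
      rcases ih (S v) hS with ⟨f, hf1, hf2⟩ | ⟨x, hx, y, hy, hxy, A, hA, B, hB, h1, h2, h3⟩
      · left
        have hne : ∀ b ∈ X, b ≠ a := fun b hb e => haX (e ▸ hb)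
        refine ⟨fun x => if x = a then v else f x, fun x hx => ?_, fun x hx y hy hxy => ?_⟩
        · rcases mem_insert.1 hx with rfl | hx
          · simpa using hv
          · simp only [hne x hx, if_false]
            exact (mem_filter.1 (hf1 x hx)).1
        · rcases mem_insert.1 hx with hx' | hx' <;> rcases mem_insert.1 hy with hy' | hy'
          · exact absurd (hx'.trans hy'.symm) hxy
          · simp only [hx', hne y hy', if_false, if_true]
            exact (mem_filter.1 (hf1 y hy')).2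
          · simp only [hy', hne x hx', if_false, if_true]
            rw [G.adj_comm, L.adj_comm]
            exact (mem_filter.1 (hf1 x hx')).2
          · simp only [hne x hx', hne y hy', if_false]
            exact hf2 x hx' y hy' hxy
      · right
        refine ⟨x, mem_insert_of_mem hx, y, mem_insert_of_mem hy, hxy, A,
          hA.trans (filter_subset _ _), B, hB.trans (filter_subset _ _), ?_, h2, h3⟩
        exact h1.trans (Nat.mul_le_mul_right _ (by omega))
    · right
      push Not at hex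
      have : Nonempty Ω := ⟨a⟩
      choose! β hβX hβ using hex
      have hVa := hVs a (mem_insert_self _ _)
      obtain ⟨v1, hv1⟩ := card_pos.1 (show 0 < (Vs a).card by omega)
      obtain ⟨b, hb, hmax⟩ := exists_max_image X
        (fun b => ((Vs a).filter fun v => β v = b).card) ⟨β v1, hβX v1 hv1⟩
      have hcount := card_le_mul_card_image_of_maps_to (f := β) (s := Vs a) (t := X) hβX _ hmax
      refine ⟨a, mem_insert_self _ _, b, mem_insert_of_mem hb, fun e => haX (e ▸ hb),
        (Vs a).filter fun v => β v = b, filter_subset _ _, Vs b, Subset.refl _, ?_,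
        hme.trans (hVs b (mem_insert_of_mem hb)), ?_⟩
      · nlinarith
      · by_cases hab : L.Adj a b
        · left
          intro v hv
          obtain ⟨hv1, hv2⟩ := mem_filter.1 hv
          have := hβ v hv1
          rw [hv2] at this
          refine le_trans (Nat.mul_le_mul_left _ (card_le_card ?_)) this.le
          intro u hu
          obtain ⟨hu1, hu2⟩ := mem_filter.1 hu
          exact mem_filter.2 ⟨hu1, by simp [hab, hu2]⟩
        · right
          intro v hv
          obtain ⟨hv1, hv2⟩ := mem_filter.1 hv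
          have := hβ v hv1
          rw [hv2] at this
          refine le_trans (Nat.mul_le_mul_left _ (card_le_card ?_)) this.le
          intro u hu
          simp only [mem_filter] at hu
          obtain ⟨hu1, hu2⟩ := hu
          exact mem_filter.2 ⟨hu1, by simp [hab, ((SimpleGraph.compl_adj _ _ _).1 hu2).2]⟩

theorem exists_parts (r : ℕ) (X : Finset Ω) : ∀ U : Finset V, X.card * r ≤ U.card →
    ∃ Vs : Ω → Finset V, (∀ a ∈ X, Vs a ⊆ U ∧ (Vs a).card = r) ∧
      ∀ a ∈ X, ∀ b ∈ X, a ≠ b → Disjoint (Vs a) (Vs b) := by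
  induction X using Finset.induction_on with
  | empty => intro U _; exact ⟨fun _ => ∅, by simp, by simp⟩
  | insert a X haX ih =>
    intro U hU
    rw [card_insert_of_notMem haX, add_mul, one_mul] at hU
    obtain ⟨A, hA, hAc⟩ := exists_subset_card_eq (show r ≤ U.card by omega)
    obtain ⟨Vs, h1, h2⟩ := ih (U \ A) (by rw [card_sdiff_of_subset hA]; omega)
    have hne : ∀ b ∈ X, b ≠ a := fun b hb e => haX (e ▸ hb)
    have hd : ∀ b ∈ X, Disjoint A (Vs b) := fun b hb =>
      disjoint_left.2 fun x hx hx' => (mem_sdiff.1 ((h1 b hb).1 hx')).2 hx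
    refine ⟨fun x => if x = a then A else Vs x, fun x hx => ?_, fun x hx y hy hxy => ?_⟩
    · rcases mem_insert.1 hx with rfl | hx
      · simp [hA, hAc]
      · simp only [hne x hx, if_false]
        exact ⟨(h1 x hx).1.trans sdiff_subset, (h1 x hx).2⟩
    · rcases mem_insert.1 hx with hx' | hx' <;> rcases mem_insert.1 hy with hy' | hy'
      · exact absurd (hx'.trans hy'.symm) hxy
      · simp only [hx', hne y hy', if_false, if_true]; exact hd y hy'
      · simp only [hy', hne x hx', if_false, if_true]; exact (hd x hx').symm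
      · simp only [hne x hx', hne y hy', if_false]; exact h2 x hx' y hy' hxy

theorem pair_cor (G : SimpleGraph V) (U : Finset V) (L : SimpleGraph Ω) (X : Finset Ω)
    (hc : ¬ Cont G U L X) (e : ℕ) (he : 1 ≤ e) (v0 : V) (m : ℕ) (hm : 1 ≤ m)
    (hU : X.card * (m * e ^ X.card) ≤ U.card) :
    ∃ A ⊆ U, ∃ B ⊆ U, Disjoint A B ∧ m ≤ X.card * A.card ∧ m ≤ B.card ∧
      ((∀ v ∈ A, e * deg G v B ≤ B.card) ∨ (∀ v ∈ A, e * deg Gᶜ v B ≤ B.card)) := by
  obtain ⟨Vs, h1, h2⟩ := exists_parts _ X U hU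
  rcases pair_lemma G L e he v0 m hm X Vs (fun a ha => (h1 a ha).2.ge) with
    ⟨f, hf1, hf2⟩ | ⟨a, ha, b, hb, hab, A, hA, B, hB, h3, h4, h5⟩
  · exfalso
    apply hc
    refine ⟨f, fun a ha => (h1 a ha).1 (hf1 a ha), fun a ha b hb hab => ?_, fun a ha b hb => ?_⟩
    · by_contra hne
      exact disjoint_left.1 (h2 a ha b hb hne) (hf1 a ha) (hab ▸ hf1 b hb)
    · by_cases hab : a = b
      · subst hab; simp
      · exact hf2 a ha b hb hab
  · exact ⟨A, hA.trans (h1 a ha).1, B, hB.trans (h1 b hb).1,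
      Disjoint.mono hA hB (h2 a ha b hb hab), h3, h4, h5⟩

theorem markov (T : Finset V) (g : V → ℕ) (c : ℕ) (h : ∑ t ∈ T, g t ≤ c * T.card) :
    T.card ≤ 2 * (T.filter fun t => g t ≤ 2 * c).card := by
  have h1 := card_filter_add_card_filter_not (s := T) (fun t => g t ≤ 2 * c)
  set bad := T.filter fun t => ¬ g t ≤ 2 * c with hbad
  have h2 : bad.card * (2 * c + 1) ≤ ∑ t ∈ T, g t := by
    refine le_trans ?_ (sum_le_sum_of_subset (filter_subset (fun t => ¬ g t ≤ 2 * c) T))
    rw [← smul_eq_mul]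
    apply card_nsmul_le_sum
    intro t ht
    have := (mem_filter.1 ht).2
    omega
  have h3 : 2 * bad.card ≤ T.card := by
    apply Nat.le_of_mul_le_mul_right _ (show 0 < 2 * c + 1 by omega)
    nlinarith
  omega

theorem deg_sum (G : SimpleGraph V) (S T : Finset V) :
    ∑ s ∈ S, deg G s T = ∑ t ∈ T, deg G t S := by
  unfold deg
  simp only [card_filter]
  rw [sum_comm]
  refine sum_congr rfl fun t _ => sum_congr rfl fun s _ => ?_
  simp only [G.adj_comm]

def Blk (G : SimpleGraph V) (U : Finset V) (a e Q : ℕ) : Prop :=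
  ∃ (m d : ℕ) (H : ℕ → Finset V), e * d ≤ m ∧ U.card ≤ Q * m ∧ m ≤ U.card ∧
    (∀ j < a, H j ⊆ U ∧ m ≤ (H j).card) ∧
    ∀ i < a, ∀ j < a, i ≠ j → ∀ y ∈ H i, y ∉ H j ∧ deg G y (H j) ≤ d

theorem Blk.lift {G : SimpleGraph V} {U A : Finset V} {a e Q R : ℕ} (h : Blk G A a (2 * e) Q)
    (hA : A ⊆ U) (hR : U.card ≤ R * A.card) : Blk G U a e (2 * R * Q) := by
  obtain ⟨m, d, H, h1, h2, h3, h4, h5⟩ := h
  refine ⟨m, d, H, by nlinarith, ?_, h3.trans (card_le_card hA),
    fun j hj => ⟨(h4 j hj).1.trans hA, (h4 j hj).2⟩, h5⟩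
  calc U.card ≤ R * A.card := hR
    _ ≤ R * (Q * m) := Nat.mul_le_mul_left _ h2
    _ ≤ 2 * R * Q * m := by nlinarith

theorem Blk.ext {G : SimpleGraph V} {U A B : Finset V} {a e Q R e1 : ℕ} (h : Blk G A a (2 * e) Q)
    (hA : A ⊆ U) (hB : B ⊆ U) (hAB : Disjoint A B) (hR : U.card ≤ R * A.card)
    (h2 : 2 * A.card ≤ B.card) (hsp : ∀ v ∈ A, e1 * deg G v B ≤ B.card) (he1 : 8 * a * e ≤ e1)
    (he1' : 0 < e1) :
    Blk G U (a + 1) e (2 * R * Q) := by
  obtain ⟨m, d, H, k1, k2, k3, k4, k5⟩ := h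
  have hH1 : ∀ j, ∃ S : Finset V, j < a → S ⊆ H j ∧ S.card = m := by
    intro j
    by_cases hj : j < a
    · obtain ⟨S, hS, hSc⟩ := exists_subset_card_eq (k4 j hj).2
      exact ⟨S, fun _ => ⟨hS, hSc⟩⟩
    · exact ⟨∅, fun h => absurd h hj⟩
  choose H1 hH1 using hH1
  set W := (range a).biUnion H1 with hW
  have hWA : W ⊆ A := by
    intro w hw
    obtain ⟨j, hj, hwj⟩ := mem_biUnion.1 hw
    exact (k4 j (mem_range.1 hj)).1 ((hH1 j (mem_range.1 hj)).1 hwj)
  have hWc : W.card ≤ a * m := by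
    refine card_biUnion_le.trans ?_
    rw [sum_congr rfl fun j hj => (hH1 j (mem_range.1 hj)).2]
    simp
  have m1 := markov B (fun b => e1 * deg G b W) (a * m) (by
    rw [← mul_sum, deg_sum, mul_sum]
    calc ∑ w ∈ W, e1 * deg G w B ≤ ∑ _w ∈ W, B.card := sum_le_sum fun w hw => hsp w (hWA hw)
      _ = W.card * B.card := by simp
      _ ≤ a * m * B.card := Nat.mul_le_mul_right _ hWc)
  obtain ⟨B', hB', hB'c⟩ := exists_subset_card_eq
    (show m ≤ (B.filter fun b => e1 * deg G b W ≤ 2 * (a * m)).card by omega)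
  have hB'B : B' ⊆ B := hB'.trans (filter_subset _ _)
  have hB'd : ∀ b ∈ B', ∀ j < a, e1 * deg G b (H1 j) ≤ 2 * (a * m) := by
    intro b hb j hj
    refine le_trans (Nat.mul_le_mul_left _ (deg_mono G b ?_)) (mem_filter.1 (hB' hb)).2
    exact subset_biUnion_of_mem H1 (mem_range.2 hj)
  let H2 : ℕ → Finset V := fun j => (H1 j).filter fun w => e1 * deg G w B' ≤ 2 * (2 * (a * m))
  have m2 : ∀ j < a, m ≤ 2 * (H2 j).card := by
    intro j hj
    have := markov (H1 j) (fun w => e1 * deg G w B') (2 * (a * m)) (by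
      rw [← mul_sum, deg_sum, mul_sum, (hH1 j hj).2]
      calc ∑ b ∈ B', e1 * deg G b (H1 j) ≤ ∑ _b ∈ B', 2 * (a * m) :=
            sum_le_sum fun b hb => hB'd b hb j hj
        _ = 2 * (a * m) * m := by simp [hB'c]; ring)
    rwa [(hH1 j hj).2] at this
  have H2sub : ∀ j < a, H2 j ⊆ H j := fun j hj => (filter_subset _ _).trans (hH1 j hj).1
  have hdiv : ∀ x, e1 * x ≤ 4 * (a * m) → x ≤ 4 * (a * m) / e1 := fun x hx =>
    (Nat.le_div_iff_mul_le he1').2 (by rw [mul_comm]; exact hx)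
  refine ⟨(m + 1) / 2, max d (4 * (a * m) / e1), fun j => if j < a then H2 j else B', ?_, ?_, ?_,
    ?_, ?_⟩
  · rcases le_total d (4 * (a * m) / e1) with hle | hle
    · rw [max_eq_right hle]
      have h1 : 4 * (a * m) / e1 * e1 ≤ 4 * (a * m) := Nat.div_mul_le_self _ _
      set x := 4 * (a * m) / e1
      have h3 : 2 * (e * x) ≤ m := by
        rcases Nat.eq_zero_or_pos a with ha | ha
        · have : x = 0 := by simp [x, ha]
          simp [this]
        · apply Nat.le_of_mul_le_mul_left _ (show 0 < 4 * a by omega)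
          nlinarith
      omega
    · rw [max_eq_left hle]
      have : 2 * (e * d) ≤ m := by nlinarith
      omega
  · calc U.card ≤ R * A.card := hR
      _ ≤ R * (Q * m) := Nat.mul_le_mul_left _ k2
      _ ≤ R * (Q * (2 * ((m + 1) / 2))) :=
        Nat.mul_le_mul_left _ (Nat.mul_le_mul_left _ (by omega))
      _ = 2 * R * Q * ((m + 1) / 2) := by ring
  · have := card_le_card hA
    omega
  · intro j hj
    by_cases hja : j < a
    · simp only [hja, if_true]
      refine ⟨(H2sub j hja).trans ((k4 j hja).1.trans hA), ?_⟩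
      have := m2 j hja
      omega
    · simp only [hja, if_false]
      exact ⟨hB'B.trans hB, by omega⟩
  · intro i hi j hj hij y hy
    by_cases hia : i < a <;> by_cases hja : j < a
    · simp only [hia, hja, if_true] at hy ⊢
      obtain ⟨p1, p2⟩ := k5 i hia j hja hij y (H2sub i hia hy)
      exact ⟨fun hc => p1 (H2sub j hja hc),
        ((deg_mono G y (H2sub j hja)).trans p2).trans (le_max_left _ _)⟩
    · simp only [hia, hja, if_true, if_false] at hy ⊢
      refine ⟨fun hc => disjoint_left.1 hAB ((k4 i hia).1 (H2sub i hia hy)) (hB'B hc), ?_⟩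
      refine le_trans (hdiv _ ?_) (le_max_right _ _)
      have := (mem_filter.1 hy).2
      omega
    · simp only [hia, hja, if_true, if_false] at hy ⊢
      refine ⟨fun hc => disjoint_left.1 hAB ((k4 j hja).1 (H2sub j hja hc)) (hB'B hy), ?_⟩
      refine le_trans (hdiv _ ?_) (le_max_right _ _)
      have h1 := hB'd y hy j hja
      have h3 : deg G y (H2 j) ≤ deg G y (H1 j) := deg_mono G y (filter_subset _ _)
      nlinarith
    · omega

theorem Blk.mono {G : SimpleGraph V} {U : Finset V} {a e Q Q' : ℕ} (h : Blk G U a e Q)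
    (hQ : Q ≤ Q') : Blk G U a e Q' := by
  obtain ⟨m, d, H, h1, h2, h3, h4, h5⟩ := h
  exact ⟨m, d, H, h1, h2.trans (Nat.mul_le_mul_right _ hQ), h3, h4, h5⟩

theorem blk_zero (G : SimpleGraph V) (U : Finset V) (e : ℕ) : Blk G U 0 e 1 :=
  ⟨U.card, 0, fun _ => ∅, by simp, by simp, le_rfl, by simp, by simp⟩

theorem blocks (L : SimpleGraph Ω) (X : Finset Ω) : ∀ (c a b e : ℕ), a + b = c → 1 ≤ e →
    ∃ Q, 1 ≤ Q ∧ ∀ (n : ℕ) (G : SimpleGraph (Fin n)) (U : Finset (Fin n)), ¬ Cont G U L X →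
      Q ≤ U.card → Blk G U a e Q ∨ Blk Gᶜ U b e Q := by
  intro c
  induction c with
  | zero =>
    intro a b e hab _
    have : a = 0 := by omega
    subst this
    exact ⟨1, le_rfl, fun n G U _ _ => Or.inl (blk_zero G U e)⟩
  | succ c ih =>
    intro a b e hab he
    rcases a with _ | a
    · exact ⟨1, le_rfl, fun n G U _ _ => Or.inl (blk_zero G U e)⟩
    rcases b with _ | b
    · exact ⟨1, le_rfl, fun n G U _ _ => Or.inr (blk_zero Gᶜ U e)⟩
    obtain ⟨Q1, hQ1, h1⟩ := ih a (b + 1) (2 * e) (by omega) (by omega)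
    obtain ⟨Q2, hQ2, h2⟩ := ih (a + 1) b (2 * e) (by omega) (by omega)
    set k := X.card with hk
    set e1 := 8 * (a + b + 1) * e with he1
    have he1pos : 0 < e1 := by positivity
    set R := 2 * (k + 1) * (k + 1) * e1 ^ k with hR
    have hRpos : 0 < R := by positivity
    refine ⟨2 * (2 * R) * (Q1 + Q2), by nlinarith, fun n G U hc hU => ?_⟩
    set r := U.card / R with hr
    have hrQ : Q1 + Q2 ≤ r := (Nat.le_div_iff_mul_le hRpos).2 (by nlinarith)
    have hr1 : r * R ≤ U.card := Nat.div_mul_le_self _ _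
    have hr2 : U.card < R * (r + 1) := Nat.lt_mul_div_succ _ hRpos
    have hUr : U.card ≤ 2 * R * r := by nlinarith
    obtain ⟨v0, -⟩ := card_pos.1 (show 0 < U.card by nlinarith)
    obtain ⟨A, hA, B, hB, hAB, hA1, hB1, hsp⟩ := pair_cor G U L X hc e1 he1pos v0
      (2 * (k + 1) * r) (by nlinarith) (by
        refine le_trans ?_ hr1
        calc k * (2 * (k + 1) * r * e1 ^ k) ≤ (k + 1) * (2 * (k + 1) * r * e1 ^ k) :=
              Nat.mul_le_mul_right _ (by omega)
          _ = r * R := by rw [hR]; ring)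
    have hrA : r ≤ A.card := by
      apply Nat.le_of_mul_le_mul_left _ (show 0 < k + 1 by omega)
      nlinarith
    obtain ⟨A', hA', hA'c⟩ := exists_subset_card_eq hrA
    have hc' : ¬ Cont G A' L X := fun h => hc (h.mono (hA'.trans hA))
    have hAB' : Disjoint A' B := Disjoint.mono_left hA' hAB
    have hUA' : U.card ≤ 2 * R * A'.card := by rw [hA'c]; exact hUr
    have hB2 : 2 * A'.card ≤ B.card := by rw [hA'c]; nlinarith
    rcases hsp with hsp | hsp
    · rcases h1 n G A' hc' (by omega) with hb | hb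
      · left
        refine (hb.ext (hA'.trans hA) hB hAB' hUA' hB2 (fun v hv => hsp v (hA' hv)) ?_
          he1pos).mono (Nat.mul_le_mul_left _ (by omega))
        rw [he1]; nlinarith
      · right
        exact (hb.lift (hA'.trans hA) hUA').mono (Nat.mul_le_mul_left _ (by omega))
    · rcases h2 n G A' hc' (by omega) with hb | hb
      · left
        exact (hb.lift (hA'.trans hA) hUA').mono (Nat.mul_le_mul_left _ (by omega))
      · right
        refine (hb.ext (hA'.trans hA) hB hAB' hUA' hB2 (fun v hv => hsp v (hA' hv)) ?_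
          he1pos).mono (Nat.mul_le_mul_left _ (by omega))
        rw [he1]; nlinarith

theorem pure_of_blk {G : SimpleGraph V} {U : Finset V} {t Q : ℕ}
    (h : Blk G U (2 ^ t) (3 ^ 2 ^ t) Q) (hU : Q * 3 ^ 2 ^ t < U.card)
    (hc : ¬ Cont G U comb (range (t + 1))) :
    ∃ A ⊆ U, ∃ B ⊆ U, Disjoint A B ∧ U.card ≤ 2 * (Q * 3 ^ 2 ^ t) * A.card ∧
      U.card ≤ 2 * (Q * 3 ^ 2 ^ t) * B.card ∧ ∀ a ∈ A, ∀ b ∈ B, ¬ G.Adj a b := by
  obtain ⟨m, d, H, h1, h2, h3, h4, h5⟩ := h
  set e := 3 ^ 2 ^ t with he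
  have hepos : 0 < e := by positivity
  have hme : e ≤ m := by
    by_contra hlt
    have : Q * m ≤ Q * e := Nat.mul_le_mul_left _ (by omega)
    omega
  set D := m / e with hD
  have hD1 : 1 ≤ D := (Nat.le_div_iff_mul_le hepos).2 (by omega)
  have hdD : d ≤ D := (Nat.le_div_iff_mul_le hepos).2 (by rw [mul_comm]; exact h1)
  have hD2 : D * e ≤ m := Nat.div_mul_le_self _ _
  have hD3 : m < e * (D + 1) := Nat.lt_mul_div_succ _ hepos
  have hUD : U.card ≤ 2 * (Q * e) * D := by
    calc U.card ≤ Q * m := h2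
      _ ≤ Q * (2 * e * D) := Nat.mul_le_mul_left _ (by nlinarith)
      _ = 2 * (Q * e) * D := by ring
  by_contra hno
  apply hc
  apply comb_of_blocks G U D t hD1 ?_ H (fun j hj => ?_) (fun j hj => (h4 j hj).1)
    (fun i hi j hj hij y hy => ⟨(h5 i hi j hj hij y hy).1, (h5 i hi j hj hij y hy).2.trans hdD⟩)
  · intro A hA B hB hAB hAc hBc
    by_contra hne
    push Not at hne
    exact hno ⟨A, hA, B, hB, hAB, hUD.trans (Nat.mul_le_mul_left _ hAc),
      hUD.trans (Nat.mul_le_mul_left _ hBc), hne⟩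
  · refine le_trans ?_ (h4 j hj).2
    rw [mul_comm]; exact hD2

/-- Excluding a comb and the complement of a comb gives linear pure pairs. -/
theorem pure_of_comb_free (t : ℕ) : ∃ q, ∀ (n : ℕ) (G : SimpleGraph (Fin n)) (U : Finset (Fin n)),
    ¬ Cont G U comb (range (t + 1)) → ¬ Cont Gᶜ U comb (range (t + 1)) → 2 ≤ U.card →
    PurePair G U q := by
  obtain ⟨Q, hQ1, hQ⟩ := blocks comb (range (t + 1)) _ (2 ^ t) (2 ^ t) (3 ^ 2 ^ t) rfl
    (Nat.one_le_pow _ _ (by omega))
  refine ⟨2 * (Q * 3 ^ 2 ^ t), fun n G U h1 h2 hU => ?_⟩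
  have he : 1 ≤ 3 ^ 2 ^ t := Nat.one_le_pow _ _ (by omega)
  by_cases hbig : Q * 3 ^ 2 ^ t < U.card
  · rcases hQ n G U h1 (by nlinarith) with hb | hb
    · obtain ⟨A, hA, B, hB, hAB, p1, p2, p3⟩ := pure_of_blk hb hbig h1
      exact ⟨A, hA, B, hB, hAB, p1, p2, Or.inr p3⟩
    · obtain ⟨A, hA, B, hB, hAB, p1, p2, p3⟩ := pure_of_blk hb hbig h2
      refine ⟨A, hA, B, hB, hAB, p1, p2, Or.inl fun a ha b hb => ?_⟩
      by_contra hna
      exact p3 a ha b hb ((SimpleGraph.compl_adj _ _ _).2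
        ⟨fun e => disjoint_left.1 hAB ha (e ▸ hb), hna⟩)
  · obtain ⟨a, ha, b, hb, hab⟩ := one_lt_card.1 (show 1 < U.card by omega)
    refine ⟨{a}, by simpa using ha, {b}, by simpa using hb, by simpa using hab, ?_, ?_, ?_⟩
    · rw [card_singleton]; omega
    · rw [card_singleton]; omega
    · by_cases h : G.Adj a b
      · left; simpa using h
      · right; simpa using h

end Pool.Agent.H7Z.WR
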