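import Pool.Agent.H7Z.WR.APS

set_option autoImplicit false

namespace Pool.Agent.H7Z.WR

open Finset
open scoped Classical

def par (j : ℕ) : ℕ := if j % 2 = 0 then j - 1 else j - 2

/-- The infinite comb: spine `0, 1, 3, 5, …`, and the leaf `2i` attached to `2i - 1`. -/
def comb : SimpleGraph ℕ where
  Adj i j := (i < j ∧ i = par j) ∨ (j < i ∧ j = par i)
  symm := ⟨fun _ _ h => h.symm⟩
  loopless := ⟨fun _ h => by rcases h with h | h <;> exact lt_irrefl _ h.1⟩

theorem comb_adj (i j : ℕ) : comb.Adj i j ↔ (i < j ∧ i = par j) ∨ (j < i ∧ j = par i) := Iff.rfl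

variable {V : Type}

def State (G : SimpleGraph V) (s : ℕ) (h : V) (B : Finset V) : Prop :=
  ∃ f : ℕ → V, f (par (s + 1)) = h ∧ (∀ i ≤ s, i ≠ par (s + 1) → f i ∈ B) ∧
    (∀ i ≤ s, ∀ j ≤ s, f i = f j → i = j) ∧ ∀ i ≤ s, ∀ j ≤ s, (G.Adj (f i) (f j) ↔ comb.Adj i j)

theorem par_le (s : ℕ) : par (s + 1) ≤ s := by
  unfold par; split_ifs <;> omega

theorem State.extend {G : SimpleGraph V} {s : ℕ} {h : V} {B : Finset V} (hs : State G s h B)
    (z : V) (hzB : z ∉ B) (hadj : G.Adj z h) (hna : ∀ x ∈ B, ¬ G.Adj z x) (B' : Finset V)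
    (hB : B ⊆ B') :
    (s % 2 = 1 → z ∈ B' → State G (s + 1) h B') ∧ (s % 2 = 0 → h ∈ B' → State G (s + 1) z B') := by
  obtain ⟨f, hf1, hf2, hf3, hf4⟩ := hs
  have hp := par_le s
  let g : ℕ → V := fun i => if i = s + 1 then z else f i
  have g1 : g (s + 1) = z := by simp [g]
  have g2 : ∀ i ≤ s, g i = f i := fun i hi => by
    have : i ≠ s + 1 := by omega
    simp [g, this]
  have hz : ∀ i ≤ s, f i ≠ z := by
    intro i hi e
    by_cases hi' : i = par (s + 1)
    · rw [hi', hf1] at e
      exact hadj.ne e.symm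
    · exact hzB (e ▸ hf2 i hi hi')
  have hza : ∀ i ≤ s, (G.Adj z (f i) ↔ comb.Adj (s + 1) i) := by
    intro i hi
    rw [comb_adj]
    by_cases hi' : i = par (s + 1)
    · rw [hi', hf1]
      exact ⟨fun _ => Or.inr ⟨by omega, rfl⟩, fun _ => hadj⟩
    · refine ⟨fun h' => absurd h' (hna _ (hf2 i hi hi')), fun h' => ?_⟩
      rcases h' with h' | h'
      · omega
      · exact absurd h'.2 hi'
  have ginj : ∀ i ≤ s + 1, ∀ j ≤ s + 1, g i = g j → i = j := by
    intro i hi j hj e
    rcases Nat.lt_or_ge s i with a | a <;> rcases Nat.lt_or_ge s j with b | b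
    · omega
    · have : i = s + 1 := by omega
      rw [this, g1, g2 j b] at e
      exact absurd e.symm (hz j b)
    · have : j = s + 1 := by omega
      rw [this, g1, g2 i a] at e
      exact absurd e (hz i a)
    · rw [g2 i a, g2 j b] at e
      exact hf3 i a j b e
  have gadj : ∀ i ≤ s + 1, ∀ j ≤ s + 1, (G.Adj (g i) (g j) ↔ comb.Adj i j) := by
    intro i hi j hj
    rcases Nat.lt_or_ge s i with a | a <;> rcases Nat.lt_or_ge s j with b | b
    · have h1 : i = s + 1 := by omega
      have h2 : j = s + 1 := by omega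
      rw [h1, h2]; simp
    · have : i = s + 1 := by omega
      rw [this, g1, g2 j b]
      exact hza j b
    · have : j = s + 1 := by omega
      rw [this, g1, g2 i a, G.adj_comm, comb.adj_comm]
      exact hza i a
    · rw [g2 i a, g2 j b]
      exact hf4 i a j b
  constructor
  · intro hodd hzB'
    have e : par (s + 1 + 1) = par (s + 1) := by
      unfold par; split_ifs <;> omega
    refine ⟨g, by rw [e, g2 _ hp, hf1], fun i hi hne => ?_, ginj, gadj⟩
    rcases Nat.lt_or_ge s i with a | a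
    · have : i = s + 1 := by omega
      rw [this, g1]; exact hzB'
    · rw [g2 i a]; exact hB (hf2 i a (e ▸ hne))
  · intro heven hhB'
    have e : par (s + 1 + 1) = s + 1 := by
      unfold par; split_ifs <;> omega
    refine ⟨g, by rw [e, g1], fun i hi hne => ?_, ginj, gadj⟩
    have a : i ≤ s := by omega
    rw [g2 i a]
    by_cases hi' : i = par (s + 1)
    · rw [hi', hf1]; exact hhB'
    · exact hB (hf2 i a hi')

theorem State.cont {G : SimpleGraph V} {s : ℕ} {h : V} {B U : Finset V} (hs : State G s h B)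
    (hh : h ∈ U) (hB : B ⊆ U) (t : ℕ) (ht : t ≤ s) : Cont G U comb (range (t + 1)) := by
  obtain ⟨f, hf1, hf2, hf3, hf4⟩ := hs
  refine ⟨f, fun a ha => ?_, fun a ha b hb => ?_, fun a ha b hb => ?_⟩
  · have := mem_range.1 ha
    by_cases e : a = par (s + 1)
    · rw [e, hf1]; exact hh
    · exact hB (hf2 a (by omega) e)
  · exact hf3 a (by have := mem_range.1 ha; omega) b (by have := mem_range.1 hb; omega)
  · exact hf4 a (by have := mem_range.1 ha; omega) b (by have := mem_range.1 hb; omega)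

theorem state_zero (G : SimpleGraph V) (h : V) : State G 0 h ∅ := by
  refine ⟨fun _ => h, rfl, fun i hi hne => ?_, fun i hi j hj _ => by omega, fun i hi j hj => ?_⟩
  · exfalso; apply hne; unfold par; simp; omega
  · have : i = 0 := by omega
    have : j = 0 := by omega
    subst_vars
    simp

/-- number of neighbours of `v` in `B` -/
noncomputable def deg (G : SimpleGraph V) (v : V) (B : Finset V) : ℕ := (B.filter (G.Adj v)).card

theorem deg_mono (G : SimpleGraph V) (v : V) {B B' : Finset V} (h : B ⊆ B') :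
    deg G v B ≤ deg G v B' := card_le_card (filter_subset_filter _ h)

/-- vertices of `H` with a neighbour in `Y` -/
noncomputable def nb (G : SimpleGraph V) (Y H : Finset V) : Finset V :=
  H.filter fun h => ∃ y ∈ Y, G.Adj y h

theorem mem_nb {G : SimpleGraph V} {Y H : Finset V} {h : V} :
    h ∈ nb G Y H ↔ h ∈ H ∧ ∃ y ∈ Y, G.Adj y h := mem_filter

theorem nb_erase (G : SimpleGraph V) (Y H : Finset V) (y : V) :
    (nb G Y H).card ≤ (nb G (Y.erase y) H).card + deg G y H := by
  refine le_trans (card_le_card ?_) (card_union_le _ _)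
  intro h hh
  obtain ⟨h1, y', hy', ha⟩ := mem_nb.1 hh
  by_cases e : y' = y
  · subst e
    exact mem_union_right _ (mem_filter.2 ⟨h1, ha⟩)
  · exact mem_union_left _ (mem_nb.2 ⟨h1, y', mem_erase.2 ⟨e, hy'⟩, ha⟩)

theorem exists_pick (J : Finset ℕ) (hJ : J.Nonempty) (s : ℕ → ℕ) :
    ∃ i ∈ J, ∀ j ∈ J, (s j % 2 = 1 ∧ s i ≤ s j) ∨ (s i % 2 = 0 ∧ s j ≤ s i) := by
  by_cases h : (J.filter fun j => s j % 2 = 0).Nonempty
  · obtain ⟨i, hi, hmax⟩ := exists_max_image _ s h
    obtain ⟨hiJ, hie⟩ := mem_filter.1 hi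
    refine ⟨i, hiJ, fun j hj => ?_⟩
    by_cases hje : s j % 2 = 0
    · exact Or.inr ⟨hie, hmax j (mem_filter.2 ⟨hj, hje⟩)⟩
    · rcases le_total (s i) (s j) with a | a
      · exact Or.inl ⟨by omega, a⟩
      · exact Or.inr ⟨hie, a⟩
  · obtain ⟨i, hi, hmin⟩ := exists_min_image J s hJ
    refine ⟨i, hi, fun j hj => Or.inl ⟨?_, hmin j hj⟩⟩
    by_contra hc
    exact h ⟨j, mem_filter.2 ⟨hj, by omega⟩⟩

structure Inv (G : SimpleGraph V) (U : Finset V) (D : ℕ) (J : Finset ℕ) (H B : ℕ → Finset V)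
    (s : ℕ → ℕ) (m : ℕ) : Prop where
  size : ∀ j ∈ J, m ≤ (H j).card
  HU : ∀ j ∈ J, H j ⊆ U
  BU : ∀ j ∈ J, B j ⊆ U
  dg : ∀ i ∈ J, ∀ j ∈ J, i ≠ j → ∀ y ∈ H i, deg G y (H j) ≤ D
  disj : ∀ i ∈ J, ∀ j ∈ J, i ≠ j → ∀ y ∈ H i, y ∉ H j
  BH : ∀ i ∈ J, ∀ j ∈ J, ∀ x ∈ B i, x ∉ H j
  BHa : ∀ i ∈ J, ∀ j ∈ J, i ≠ j → ∀ x ∈ B i, ∀ y ∈ H j, ¬ G.Adj x y
  BBa : ∀ i ∈ J, ∀ j ∈ J, i ≠ j → ∀ x ∈ B i, ∀ y ∈ B j, ¬ G.Adj x y
  st : ∀ j ∈ J, ∀ h ∈ H j, State G (s j) h (B j)

theorem game (G : SimpleGraph V) (U : Finset V) (D : ℕ) (hD : 1 ≤ D)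
    (hpair : ∀ A ⊆ U, ∀ B ⊆ U, Disjoint A B → D ≤ A.card → D ≤ B.card →
      ∃ a ∈ A, ∃ b ∈ B, G.Adj a b) :
    ∀ (N : ℕ) (J : Finset ℕ) (H B : ℕ → Finset V) (s : ℕ → ℕ), J.card = N + 1 →
      Inv G U D J H B s (3 ^ N * D) →
      ∃ t h C, h ∈ U ∧ C ⊆ U ∧ State G t h C ∧ ∑ j ∈ J, 2 ^ s j ≤ 2 ^ t := by
  intro N
  induction N with
  | zero =>
    intro J H B s hJ hI
    obtain ⟨j, rfl⟩ := card_eq_one.1 hJ
    have hj : j ∈ ({j} : Finset ℕ) := mem_singleton_self j
    have := hI.size j hj
    obtain ⟨h, hh⟩ := card_pos.1 (show 0 < (H j).card by omega)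
    exact ⟨s j, h, B j, hI.HU j hj hh, hI.BU j hj, hI.st j hj h hh, by simp⟩
  | succ N ih =>
    intro J H B s hJ hI
    obtain ⟨i, hi, hpick⟩ := exists_pick J (card_pos.1 (by omega)) s
    set m := 3 ^ N * D with hm
    have hmD : D ≤ m := Nat.le_mul_of_pos_left _ (by positivity)
    have hsize : ∀ j ∈ J, 3 * m ≤ (H j).card := fun j hj => by
      have := hI.size j hj
      rw [pow_succ] at this
      calc 3 * m = 3 ^ N * 3 * D := by rw [hm]; ring
        _ ≤ _ := this
    have hJe : (J.erase i).card = N + 1 := by rw [card_erase_of_mem hi]; omega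
    obtain ⟨j0, hj0⟩ := card_pos.1 (show 0 < (J.erase i).card by omega)
    -- the family of good subsets of `H i`
    have hgood : ((H i).powerset.filter
        fun Y => ∃ j ∈ J.erase i, m ≤ (nb G Y (H j)).card).Nonempty := by
      refine ⟨H i, mem_filter.2 ⟨mem_powerset.2 (Subset.refl _), j0, hj0, ?_⟩⟩
      obtain ⟨hj0i, hj0J⟩ := mem_erase.1 hj0
      by_contra hc
      have hc' : (nb G (H i) (H j0)).card < m := by omega
      have hsub : nb G (H i) (H j0) ⊆ H j0 := filter_subset _ _
      have hcard : (H j0 \ nb G (H i) (H j0)).card = (H j0).card - (nb G (H i) (H j0)).card :=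
        card_sdiff_of_subset hsub
      have h1 := hsize j0 hj0J
      have h2 := hsize i hi
      obtain ⟨a, ha, b, hb, hab⟩ := hpair (H i) (hI.HU i hi) (H j0 \ nb G (H i) (H j0))
        (sdiff_subset.trans (hI.HU j0 hj0J))
        (disjoint_left.2 fun y hy hy' => hI.disj i hi j0 hj0J hj0i.symm y hy (mem_sdiff.1 hy').1)
        (by omega) (by omega)
      exact (mem_sdiff.1 hb).2 (mem_nb.2 ⟨(mem_sdiff.1 hb).1, a, ha, hab⟩)
    obtain ⟨Y, hY, hYmin⟩ := exists_min_image _ Finset.card hgood
    obtain ⟨hYH, j, hj, hYj⟩ := mem_filter.1 hY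
    have hYH' : Y ⊆ H i := mem_powerset.1 hYH
    obtain ⟨hji, hjJ⟩ := mem_erase.1 hj
    have hYne : Y.Nonempty := by
      obtain ⟨h, hh⟩ := card_pos.1 (show 0 < (nb G Y (H j)).card by omega)
      obtain ⟨-, y, hy, -⟩ := mem_nb.1 hh
      exact ⟨y, hy⟩
    obtain ⟨y0, hy0⟩ := hYne
    have hsmall : ∀ k ∈ J.erase i, (nb G Y (H k)).card ≤ 2 * m := by
      intro k hk
      obtain ⟨hki, hkJ⟩ := mem_erase.1 hk
      have h1 : (nb G (Y.erase y0) (H k)).card < m := by
        by_contra hc
        have := hYmin (Y.erase y0) (mem_filter.2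
          ⟨mem_powerset.2 ((erase_subset _ _).trans hYH'), k, hk, by omega⟩)
        have h2 := card_erase_lt_of_mem hy0
        omega
      have h2 := nb_erase G Y (H k) y0
      have h3 := hI.dg i hi k hkJ hki.symm y0 (hYH' hy0)
      omega
    let H' : ℕ → Finset V := fun k => if k = j then nb G Y (H j) else H k \ nb G Y (H k)
    let B' : ℕ → Finset V := fun k => if k = j then B j ∪ B i ∪ Y else B k
    let s' : ℕ → ℕ := fun k => if k = j then max (s i) (s j) + 1 else s k
    have H'sub : ∀ k, H' k ⊆ H k := by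
      intro k
      by_cases e : k = j
      · subst e; simp only [H', if_true]; exact filter_subset _ _
      · simp only [H', e, if_false]; exact sdiff_subset
    have B'j : ∀ x ∈ B' j, x ∈ B j ∨ x ∈ B i ∨ x ∈ Y := by
      intro x hx
      simp only [B', if_true, mem_union] at hx
      tauto
    have B'k : ∀ k, k ≠ j → B' k = B k := fun k e => by simp only [B', e, if_false]
    have H'k : ∀ k, k ≠ j → ∀ x ∈ H' k, ∀ y ∈ Y, ¬ G.Adj y x := by
      intro k e x hx y hy ha
      simp only [H', e, if_false] at hx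
      exact (mem_sdiff.1 hx).2 (mem_nb.2 ⟨(mem_sdiff.1 hx).1, y, hy, ha⟩)
    have hI' : Inv G U D (J.erase i) H' B' s' m := by
      refine ⟨?_, ?_, ?_, ?_, ?_, ?_, ?_, ?_, ?_⟩
      · intro k hk
        by_cases e : k = j
        · subst e; simp only [H', if_true]; exact hYj
        · simp only [H', e, if_false]
          have hsub : nb G Y (H k) ⊆ H k := filter_subset _ _
          rw [card_sdiff_of_subset hsub]
          have h1 := hsmall k hk
          have h2 := hsize k (mem_erase.1 hk).2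
          omega
      · exact fun k hk => (H'sub k).trans (hI.HU k (mem_erase.1 hk).2)
      · intro k hk
        by_cases e : k = j
        · subst e
          intro x hx
          rcases B'j x hx with h | h | h
          · exact hI.BU k hjJ h
          · exact hI.BU i hi h
          · exact hI.HU i hi (hYH' h)
        · rw [B'k k e]; exact hI.BU k (mem_erase.1 hk).2
      · intro k hk l hl hkl y hy
        exact (deg_mono G y (H'sub l)).trans
          (hI.dg k (mem_erase.1 hk).2 l (mem_erase.1 hl).2 hkl y (H'sub k hy))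
      · intro k hk l hl hkl y hy hy'
        exact hI.disj k (mem_erase.1 hk).2 l (mem_erase.1 hl).2 hkl y (H'sub k hy) (H'sub l hy')
      · intro k hk l hl x hx hx'
        obtain ⟨hli, hlJ⟩ := mem_erase.1 hl
        by_cases e : k = j
        · subst e
          rcases B'j x hx with h | h | h
          · exact hI.BH k hjJ l hlJ x h (H'sub l hx')
          · exact hI.BH i hi l hlJ x h (H'sub l hx')
          · exact hI.disj i hi l hlJ hli.symm x (hYH' h) (H'sub l hx')
        · rw [B'k k e] at hx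
          exact hI.BH k (mem_erase.1 hk).2 l hlJ x hx (H'sub l hx')
      · intro k hk l hl hkl x hx y hy
        obtain ⟨hli, hlJ⟩ := mem_erase.1 hl
        by_cases e : k = j
        · subst e
          rcases B'j x hx with h | h | h
          · exact hI.BHa k hjJ l hlJ hkl x h y (H'sub l hy)
          · exact hI.BHa i hi l hlJ hli.symm x h y (H'sub l hy)
          · exact H'k l hkl.symm y hy x h
        · rw [B'k k e] at hx
          exact hI.BHa k (mem_erase.1 hk).2 l hlJ hkl x hx y (H'sub l hy)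
      · have aux : ∀ l ∈ J.erase i, l ≠ j → ∀ x ∈ B' j, ∀ y ∈ B l, ¬ G.Adj x y := by
          intro l hl hlj x hx y hy
          obtain ⟨hli, hlJ⟩ := mem_erase.1 hl
          rcases B'j x hx with h | h | h
          · exact hI.BBa j hjJ l hlJ hlj.symm x h y hy
          · exact hI.BBa i hi l hlJ hli.symm x h y hy
          · exact fun ha => hI.BHa l hlJ i hi hli y hy x (hYH' h) ha.symm
        intro k hk l hl hkl x hx y hy
        by_cases e : k = j
        · subst e
          rw [B'k l hkl.symm] at hy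
          exact aux l hl hkl.symm x hx y hy
        · by_cases e' : l = j
          · subst e'
            rw [B'k k e] at hx
            exact fun ha => aux k hk e y hy x hx ha.symm
          · rw [B'k k e] at hx
            rw [B'k l e'] at hy
            exact hI.BBa k (mem_erase.1 hk).2 l (mem_erase.1 hl).2 hkl x hx y hy
      · intro k hk h hh
        by_cases e : k = j
        · subst e
          simp only [H', if_true] at hh
          obtain ⟨hhH, y, hy, ha⟩ := mem_nb.1 hh
          have hyH := hYH' hy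
          simp only [s', B', if_true]
          rcases hpick k hjJ with ⟨hodd, hle⟩ | ⟨heven, hle⟩
          · rw [max_eq_right hle]
            refine ((hI.st k hjJ h hhH).extend y (fun hc => hI.BH k hjJ i hi y hc hyH) ha
              (fun x hx ha' => hI.BHa k hjJ i hi hji x hx y hyH ha'.symm) _ ?_).1 hodd ?_
            · exact subset_union_left.trans subset_union_left
            · exact mem_union_right _ hy
          · rw [max_eq_left hle]
            refine ((hI.st i hi y hyH).extend h (fun hc => hI.BH i hi k hjJ h hc hhH) ha.symm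
              (fun x hx ha' => hI.BHa i hi k hjJ hji.symm x hx h hhH ha'.symm) _ ?_).2 heven ?_
            · exact subset_union_right.trans subset_union_left
            · exact mem_union_right _ hy
        · simp only [s', e, if_false]
          rw [B'k k e]
          exact hI.st k (mem_erase.1 hk).2 h (H'sub k hh)
    obtain ⟨t, h, C, h1, h2, h3, h4⟩ := ih (J.erase i) H' B' s' hJe hI'
    refine ⟨t, h, C, h1, h2, h3, le_trans ?_ h4⟩
    rw [← add_sum_erase J _ hi, ← add_sum_erase _ _ hj, ← add_sum_erase _ (fun k => 2 ^ s' k) hj]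
    have e1 : ∑ k ∈ (J.erase i).erase j, 2 ^ s' k = ∑ k ∈ (J.erase i).erase j, 2 ^ s k := by
      apply sum_congr rfl
      intro k hk
      simp only [s', (mem_erase.1 hk).1, if_false]
    rw [e1]
    have e2 : 2 ^ s i + 2 ^ s j ≤ 2 ^ s' j := by
      simp only [s', if_true]
      have a1 : 2 ^ s i ≤ 2 ^ max (s i) (s j) := Nat.pow_le_pow_right (by omega) (le_max_left _ _)
      have a2 : 2 ^ s j ≤ 2 ^ max (s i) (s j) := Nat.pow_le_pow_right (by omega) (le_max_right _ _)
      rw [pow_succ]; omega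
    omega

/-- Sparse blocks without a large anticomplete pair contain a long comb. -/
theorem comb_of_blocks (G : SimpleGraph V) (U : Finset V) (D t : ℕ) (hD : 1 ≤ D)
    (hpair : ∀ A ⊆ U, ∀ B ⊆ U, Disjoint A B → D ≤ A.card → D ≤ B.card →
      ∃ a ∈ A, ∃ b ∈ B, G.Adj a b)
    (H : ℕ → Finset V) (hsize : ∀ j < 2 ^ t, 3 ^ (2 ^ t) * D ≤ (H j).card)
    (hU : ∀ j < 2 ^ t, H j ⊆ U)
    (hdisj : ∀ i < 2 ^ t, ∀ j < 2 ^ t, i ≠ j → ∀ y ∈ H i, y ∉ H j ∧ deg G y (H j) ≤ D) :
    Cont G U comb (range (t + 1)) := by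
  have hpos : 0 < 2 ^ t := by positivity
  obtain ⟨t', h, C, h1, h2, h3, h4⟩ := game G U D hD hpair (2 ^ t - 1) (range (2 ^ t)) H
    (fun _ => ∅) (fun _ => 0) (by rw [card_range]; omega) (by
      refine ⟨fun j hj => le_trans ?_ (hsize j (mem_range.1 hj)), fun j hj => hU j (mem_range.1 hj),
        fun _ _ => empty_subset _, fun i hi j hj hij y hy => ?_, fun i hi j hj hij y hy => ?_,
        by simp, by simp, by simp, fun j _ h _ => state_zero G h⟩
      · exact Nat.mul_le_mul_right _ (Nat.pow_le_pow_right (by omega) (by omega))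
      · exact (hdisj i (mem_range.1 hi) j (mem_range.1 hj) hij y hy).2
      · exact (hdisj i (mem_range.1 hi) j (mem_range.1 hj) hij y hy).1)
  refine h3.cont h1 h2 t ?_
  simp only [pow_zero, sum_const, card_range, smul_eq_mul, mul_one] at h4
  exact (Nat.pow_le_pow_iff_right (by omega)).1 h4

end Pool.Agent.H7Z.WR
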