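import Mathlib

set_option autoImplicit false

/-!
Definitions for MP_18a3c4_co: hereditary classes, graphons, induced densities, weak randomness,
the classes WR and EHP.
-/

namespace Pool.Agent.H7Z.WR

open MeasureTheory Filter Topology
open scoped unitInterval Classical

/-- A class of finite simple graphs: for every `n`, a set of graphs on the vertex set `Fin n`. -/
abbrev GraphClass : Type := ∀ n : ℕ, Set (SimpleGraph (Fin n))

/-- Closed under isomorphism and induced subgraphs: `H ↪g G` is the type of embeddings of `H`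
onto an induced subgraph of `G`. -/
def Hereditary (F : GraphClass) : Prop :=
  ∀ (m n : ℕ) (H : SimpleGraph (Fin m)) (G : SimpleGraph (Fin n)),
    G ∈ F n → Nonempty (H ↪g G) → H ∈ F m

/-- The Erdős–Hajnal property. -/
def EHP (F : GraphClass) : Prop :=
  ∃ c : ℝ, 0 < c ∧ ∀ n : ℕ, ∀ G ∈ F n, ∃ s : Finset (Fin n),
    (G.IsClique (s : Set (Fin n)) ∨ G.IsIndepSet (s : Set (Fin n))) ∧ (n : ℝ) ^ c ≤ s.card

/-- A graphon: a symmetric measurable function `[0,1]² → [0,1]`. -/
structure Graphon where
  W : I → I → ℝ
  measurable : Measurable (fun p : I × I => W p.1 p.2)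
  symm : ∀ x y, W x y = W y x
  nonneg : ∀ x y, 0 ≤ W x y
  le_one : ∀ x y, W x y ≤ 1

/-- The induced density `p(H, G)`: the probability that a uniformly random injective map
`Fin k → V(G)` induces a graph isomorphic to `H` (the fraction of `k`-sets inducing a copy of
`H`). -/
noncomputable def pG {k n : ℕ} (H : SimpleGraph (Fin k)) (G : SimpleGraph (Fin n)) : ℝ :=
  ((Finset.univ.filter fun φ : Fin k ↪ Fin n => Nonempty (G.comap φ ≃g H)).card : ℝ) /
    (n.descFactorial k : ℝ)

/-- The probability that the `W`-random graph on `k` independent points of law `μ` is the labelled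
graph `H`. -/
noncomputable def tInd (μ : Measure I) (W : Graphon) {k : ℕ} (H : SimpleGraph (Fin k)) : ℝ :=
  ∫ x : Fin k → I, ∏ p ∈ Finset.univ.filter (fun p : Fin k × Fin k => p.1 < p.2),
    (if H.Adj p.1 p.2 then W.W (x p.1) (x p.2) else 1 - W.W (x p.1) (x p.2))
    ∂(Measure.pi fun _ => μ)

/-- The induced density `p(H, W)` of `H` in the graphon `W` over the probability space
`([0,1], μ)`: the probability that the `W`-random graph on `k` points is isomorphic to `H`. -/
noncomputable def pW (μ : Measure I) (W : Graphon) {k : ℕ} (H : SimpleGraph (Fin k)) : ℝ :=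
  ∑ H' ∈ Finset.univ.filter (fun H' : SimpleGraph (Fin k) => Nonempty (H' ≃g H)), tInd μ W H'

/-- `W` is the limit of a convergent sequence of graphs of `F` whose orders tend to infinity. -/
def IsGraphonOf (F : GraphClass) (W : Graphon) : Prop :=
  ∃ (n : ℕ → ℕ) (G : ∀ t, SimpleGraph (Fin (n t))), (∀ t, G t ∈ F (n t)) ∧
    Tendsto n atTop atTop ∧
    ∀ (k : ℕ) (H : SimpleGraph (Fin k)),
      Tendsto (fun t => pG H (G t)) atTop (𝓝 (pW volume W H))

/-- `W` over the probability space `([0,1], μ)` is weakly random: for every measurable `B` of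
positive `μ`-measure, the subgraphon on `B` (the same `W` over the normalised measure
`μ(· ∩ B)/μ(B)`) has the same graphs of positive density. -/
def WeaklyRandom (μ : Measure I) (W : Graphon) : Prop :=
  ∀ B : Set I, MeasurableSet B → 0 < μ B → ∀ (k : ℕ) (H : SimpleGraph (Fin k)),
    (0 < pW (ProbabilityTheory.cond μ B) W H ↔ 0 < pW μ W H)

/-- The class WR: every graphon of `F` has a weakly random subgraphon. -/
def InWR (F : GraphClass) : Prop :=
  ∀ W : Graphon, IsGraphonOf F W → ∃ A : Set I, MeasurableSet A ∧ 0 < volume A ∧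
    WeaklyRandom (ProbabilityTheory.cond volume A) W

end Pool.Agent.H7Z.WR
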