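import Pool.Agent.H7Z.WR.Tree

set_option autoImplicit false

namespace Pool.Agent.H7Z.WR

open Finset
open scoped Classical

def NN : ℕ → ℕ
  | 0 => 1
  | (i + 1) => NN i * (i + 8)

theorem NN_pos (i : ℕ) : 0 < NN i := by
  induction i with
  | zero => simp [NN]
  | succ i ih => simp only [NN]; positivity

theorem NN_ge (i : ℕ) : i ≤ NN i := by
  induction i with
  | zero => simp
  | succ i ih => have := NN_pos i; simp only [NN]; nlinarith

noncomputable def cc (i : ℕ) (x : ℝ) : ℕ := ⌊(NN i : ℝ) * x⌋₊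

noncomputable def dd (i : ℕ) (x : ℝ) : ℕ := cc (i + 1) x % (i + 8)

theorem cc_succ (i : ℕ) (x : ℝ) : cc i x = cc (i + 1) x / (i + 8) := by
  unfold cc
  rw [← Nat.floor_div_natCast]
  congr 1
  simp only [NN]
  have : ((i + 8 : ℕ) : ℝ) ≠ 0 := by positivity
  rw [Nat.cast_mul]
  field_simp

theorem cc_succ_eq (i : ℕ) (x : ℝ) : cc (i + 1) x = cc i x * (i + 8) + dd i x := by
  rw [cc_succ i x, dd, mul_comm]
  exact (Nat.div_add_mod _ _).symm

theorem dd_lt (i : ℕ) (x : ℝ) : dd i x < i + 8 := Nat.mod_lt _ (by omega)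

theorem cc_eq_of_le {i j : ℕ} (hij : i ≤ j) {x y : ℝ} (h : cc j x = cc j y) : cc i x = cc i y := by
  induction j, hij using Nat.le_induction with
  | base => exact h
  | succ j _ ih => exact ih (by rw [cc_succ j x, cc_succ j y, h])

theorem dd_eq_of_lt {i j : ℕ} (hij : i < j) {x y : ℝ} (h : cc j x = cc j y) : dd i x = dd i y := by
  unfold dd
  rw [cc_eq_of_le (show i + 1 ≤ j by omega) h]

/-- The infinite lexicographic product of the graphs `A i`. -/
def lex (A : ℕ → SimpleGraph ℕ) : SimpleGraph ℝ where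
  Adj x y := ∃ i, cc i x = cc i y ∧ (A i).Adj (dd i x) (dd i y)
  symm := ⟨fun _ _ ⟨i, h1, h2⟩ => ⟨i, h1.symm, h2.symm⟩⟩
  loopless := ⟨fun _ ⟨_, _, h2⟩ => h2.ne rfl⟩

variable {A : ℕ → SimpleGraph ℕ}

theorem lex_adj_level {l : ℕ} {x y : ℝ} (h1 : cc l x = cc l y) (h2 : dd l x ≠ dd l y) :
    (lex A).Adj x y ↔ (A l).Adj (dd l x) (dd l y) := by
  refine ⟨fun ⟨i, k1, k2⟩ => ?_, fun h => ⟨l, h1, h⟩⟩
  rcases lt_trichotomy i l with h | h | h
  · exact absurd (dd_eq_of_lt h h1) k2.ne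
  · subst h; exact k2
  · exact absurd (dd_eq_of_lt h k1) h2

theorem lex_adj_congr {t : ℕ} {x y x' y' : ℝ} (hx : cc t x = cc t x') (hy : cc t y = cc t y')
    (hne : cc t x ≠ cc t y) (h : (lex A).Adj x y) : (lex A).Adj x' y' := by
  obtain ⟨i, k1, k2⟩ := h
  have hit : i < t := by
    by_contra hc
    exact hne (cc_eq_of_le (by omega) k1)
  refine ⟨i, ?_, ?_⟩
  · rw [← cc_eq_of_le hit.le hx, ← cc_eq_of_le hit.le hy, k1]
  · rw [← dd_eq_of_lt hit hx, ← dd_eq_of_lt hit hy]; exact k2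

theorem exists_level {κ : Type} (S : Set κ) (x : κ → ℝ) (i0 : ℕ)
    (h0 : ∀ a ∈ S, ∀ b ∈ S, cc i0 (x a) = cc i0 (x b))
    (ht : ∃ t, ∃ a ∈ S, ∃ b ∈ S, cc t (x a) ≠ cc t (x b)) :
    ∃ l, i0 ≤ l ∧ (∀ a ∈ S, ∀ b ∈ S, cc l (x a) = cc l (x b)) ∧
      ∃ a ∈ S, ∃ b ∈ S, dd l (x a) ≠ dd l (x b) := by
  have hspec := Nat.find_spec ht
  have hmin := fun m => Nat.find_min ht (m := m)
  set t := Nat.find ht with htdef
  obtain ⟨a, ha, b, hb, hab⟩ := hspec
  have hlt : i0 < t := by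
    by_contra hc
    exact hab (cc_eq_of_le (by omega) (h0 a ha b hb))
  obtain ⟨l, hl⟩ : ∃ l, t = l + 1 := ⟨t - 1, by omega⟩
  have hl' := hmin l (by omega)
  push Not at hl'
  refine ⟨l, by omega, hl', a, ha, b, hb, fun e => hab ?_⟩
  rw [hl, cc_succ_eq, cc_succ_eq, e, hl' a ha b hb]

theorem good_lex {P : PClass} (hP : Down P) (hA : ∀ i, Good P (A i) (range (i + 8))) (t : ℕ) :
    ∀ (N : ℕ) (X : Finset ℝ), X.card = N → (∀ x ∈ X, cc 0 x = 0) →
      (∀ x ∈ X, ∀ y ∈ X, cc t x = cc t y → x = y) → Good P (lex A) X := by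
  intro N
  induction N using Nat.strong_induction_on with
  | _ N ih =>
    intro X hXN h0 hinj
    by_cases hX1 : X.card ≤ 1
    · exact good_small _ _ hX1
    obtain ⟨a, ha, b, hb, hab⟩ := one_lt_card.1 (show 1 < X.card by omega)
    obtain ⟨l, -, hl, p, hp, q, hq, hpq⟩ := exists_level (X : Set ℝ) id 0
      (fun x hx y hy => by rw [id, id, h0 x hx, h0 y hy])
      ⟨t, a, ha, b, hb, fun e => hab (hinj a ha b hb e)⟩
    simp only [id, mem_coe] at hl hp hq hpq
    by_cases hd : ∀ x ∈ X, ∀ y ∈ X, dd l x = dd l y → x = y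
    · refine (hA l).of_cont ⟨dd l, fun x _ => mem_range.2 (dd_lt l x), hd, fun x hx y hy => ?_⟩
      by_cases e : x = y
      · subst e; simp
      · exact (lex_adj_level (hl x hx y hy) fun e' => e (hd x hx y hy e')).symm
    · push Not at hd
      obtain ⟨m, hm, m', hm', hmm, hne⟩ := hd
      set M := X.filter fun x => dd l x = dd l m with hM
      have hmM : m ∈ M := mem_filter.2 ⟨hm, rfl⟩
      have hm'M : m' ∈ M := mem_filter.2 ⟨hm', hmm.symm⟩
      have hMX : M ⊆ X := filter_subset _ _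
      have hM2 : 1 < M.card := one_lt_card.2 ⟨m, hmM, m', hm'M, hne⟩
      have hMlt : M.card < X.card := by
        apply card_lt_card
        refine ⟨hMX, fun hc => hpq ?_⟩
        rw [(mem_filter.1 (hc hp)).2, (mem_filter.1 (hc hq)).2]
      have hYX : insert m (X \ M) ⊆ X := insert_subset hm sdiff_subset
      have hYlt : (insert m (X \ M)).card < X.card := by
        have h1 := card_insert_le m (X \ M)
        rw [card_sdiff_of_subset hMX] at h1
        omega
      have g1 := ih _ (hXN ▸ hYlt) _ rfl (fun x hx => h0 x (hYX hx))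
        (fun x hx y hy => hinj x (hYX hx) y (hYX hy))
      have g2 := ih _ (hXN ▸ hMlt) _ rfl (fun x hx => h0 x (hMX hx))
        (fun x hx y hy => hinj x (hMX hx) y (hMX hy))
      refine good_module hP (lex A) X M m hmM (fun x hx hxM c hc => ?_) (by convert g1) g2
      obtain ⟨hcX, hcd⟩ := mem_filter.1 hc
      have hxd : dd l m ≠ dd l x := fun e => hxM (mem_filter.2 ⟨hx, e.symm⟩)
      rw [lex_adj_level (hl c hcX x hx) (hcd ▸ hxd), lex_adj_level (hl m hm x hx) hxd, hcd]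

theorem no_weak_copy (hA : GoodSeq A) (i : ℕ) (x : ℕ → ℝ)
    (h0 : ∀ a < i + 8, ∀ b < i + 8, cc (i + 1) (x a) = cc (i + 1) (x b))
    (hadj : ∀ a < i + 8, ∀ b < i + 8, a ≠ b → ((lex A).Adj (x a) (x b) ↔ (A i).Adj a b)) :
    False := by
  obtain ⟨a0, ha0, b0, hb0, hab0⟩ := hA.edge i
  obtain ⟨j, -, hj⟩ := (hadj a0 ha0 b0 hb0 hab0.ne).2 hab0
  obtain ⟨l, hil, hl, p, hp, q, hq, hpq⟩ := exists_level {a | a < i + 8} x (i + 1) h0
    ⟨j + 1, a0, ha0, b0, hb0, fun e => hj.ne (dd_eq_of_lt (Nat.lt_succ_self j) e)⟩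
  simp only [Set.mem_ofPred_eq] at hl hp hq
  have hinj : ∀ a < i + 8, ∀ b < i + 8, dd l (x a) = dd l (x b) → a = b := by
    intro a ha b hb e
    by_contra hne
    have := hA.prime i {c | dd l (x c) = dd l (x a)} (fun y hy hyM c hc c' hc' hcM hc'M => by
      simp only [Set.mem_ofPred_eq] at hyM hcM hc'M
      have n1 : dd l (x c) ≠ dd l (x y) := fun e => hyM (e.symm.trans hcM)
      have n2 : dd l (x c') ≠ dd l (x y) := fun e => hyM (e.symm.trans hc'M)
      rw [← hadj c hc y hy (fun e => n1 (by rw [e])), ← hadj c' hc' y hy (fun e => n2 (by rw [e])),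
        lex_adj_level (hl c hc y hy) n1, lex_adj_level (hl c' hc' y hy) n2, hcM, hc'M])
      a ha b hb rfl e.symm hne
    exact hpq ((this p hp).trans (this q hq).symm)
  apply hA.anti i l (by omega)
  refine ⟨fun a => dd l (x a), fun a _ => mem_range.2 (dd_lt l _),
    fun a ha b hb => hinj a (mem_range.1 ha) b (mem_range.1 hb), fun a ha b hb => ?_⟩
  by_cases e : a = b
  · subst e; simp
  · have ha' := mem_range.1 ha
    have hb' := mem_range.1 hb
    rw [← hadj a ha' b hb' e, lex_adj_level (hl a ha' b hb') fun e' => e (hinj a ha' b hb' e')]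

theorem cc_grid (t j : ℕ) : cc t ((j : ℝ) / NN t) = j := by
  unfold cc
  have : (NN t : ℝ) ≠ 0 := by have := NN_pos t; positivity
  rw [mul_div_cancel₀ _ this, Nat.floor_natCast]

theorem cc_zero_grid (t j : ℕ) (hj : j < NN t) : cc 0 ((j : ℝ) / NN t) = 0 := by
  unfold cc
  have : (0 : ℝ) < NN t := by have := NN_pos t; positivity
  simp only [NN, Nat.cast_one, one_mul]
  rw [Nat.floor_eq_zero, div_lt_one this]
  exact_mod_cast hj

/-- The finite lexicographic products. -/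
noncomputable def grid (A : ℕ → SimpleGraph ℕ) (t : ℕ) : SimpleGraph (Fin (NN t)) :=
  (lex A).comap fun j => ((j : ℕ) : ℝ) / NN t

theorem grid_mem {F : GraphClass} (hF : Hereditary F) {P : PClass} (hP : Down P) (hE : ¬ EH P)
    (hPF : ∀ n G U, P n G U → G ∈ F n) (hA : ∀ i, Good P (A i) (range (i + 8))) (t : ℕ) :
    grid A t ∈ F (NN t) := by
  let g : Fin (NN t) → ℝ := fun j => ((j : ℕ) : ℝ) / NN t
  have hg : ∀ j, cc t (g j) = j := fun j => cc_grid t j
  have hgood := good_lex hP hA t _ (univ.image g) rfl (fun x hx => by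
    obtain ⟨j, -, rfl⟩ := mem_image.1 hx
    exact cc_zero_grid t j j.2) (fun x hx y hy e => by
    obtain ⟨j, -, rfl⟩ := mem_image.1 hx
    obtain ⟨k, -, rfl⟩ := mem_image.1 hy
    rw [hg, hg] at e
    rw [Fin.ext e])
  have : ∃ n G U, P n G U ∧ Cont G U (lex A) (univ.image g) := by
    by_contra hno
    push Not at hno
    obtain ⟨d, hd⟩ := hgood
    exact hE ⟨d, fun n G U h => hd n G U ⟨h, hno n G U h⟩⟩
  obtain ⟨n, G, U, hPU, f, hf⟩ := this
  have hm : ∀ j, g j ∈ univ.image g := fun j => mem_image_of_mem _ (mem_univ j)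
  refine hF _ n _ G (hPF n G U hPU) ⟨⟨⟨fun j => f (g j), fun j k e => ?_⟩, fun {j k} => ?_⟩⟩
  · have := congrArg (cc t) (hf.2.1 _ (hm j) _ (hm k) e)
    rw [hg, hg] at this
    exact Fin.ext this
  · exact hf.2.2 _ (hm j) _ (hm k)

end Pool.Agent.H7Z.WR
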