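import Pool.Agent.H7Z.WR.Lex

set_option autoImplicit false

namespace Pool.Agent.H7Z.WR

open Finset MeasureTheory Filter Topology ProbabilityTheory
open scoped Classical unitInterval

theorem measurable_cc (i : ℕ) : Measurable fun x : I => cc i (x : ℝ) :=
  (measurable_const.mul measurable_subtype_coe).nat_floor

theorem measurableSet_lex (A : ℕ → SimpleGraph ℕ) :
    MeasurableSet {p : I × I | (lex A).Adj p.1 p.2} := by
  have : {p : I × I | (lex A).Adj p.1 p.2} = ⋃ i, (fun p : I × I => (cc (i + 1) p.1, cc (i + 1) p.2)) ⁻¹'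
      {q : ℕ × ℕ | q.1 / (i + 8) = q.2 / (i + 8) ∧ (A i).Adj (q.1 % (i + 8)) (q.2 % (i + 8))} := by
    ext p
    simp only [Set.mem_ofPred_eq, Set.mem_iUnion, Set.mem_preimage, ← cc_succ]
    rfl
  rw [this]
  exact MeasurableSet.iUnion fun i => (((measurable_cc _).comp measurable_fst).prodMk
    ((measurable_cc _).comp measurable_snd)) MeasurableSet.of_discrete

noncomputable def lexW (A : ℕ → SimpleGraph ℕ) : Graphon where
  W x y := if (lex A).Adj x y then 1 else 0
  measurable := Measurable.ite (measurableSet_lex A) measurable_const measurable_const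
  symm x y := by simp only [(lex A).adj_comm]
  nonneg x y := by split_ifs <;> norm_num
  le_one x y := by split_ifs <;> norm_num

variable {A : ℕ → SimpleGraph ℕ}

def EE (A : ℕ → SimpleGraph ℕ) {k : ℕ} (H : SimpleGraph (Fin k)) : Set (Fin k → I) :=
  {x | ∀ a b, a < b → ((lex A).Adj (x a) (x b) ↔ H.Adj a b)}

theorem EE_ne {k : ℕ} {H : SimpleGraph (Fin k)} {x : Fin k → I} (hx : x ∈ EE A H) {a b : Fin k}
    (hab : a ≠ b) : (lex A).Adj (x a) (x b) ↔ H.Adj a b := by
  rcases lt_or_gt_of_ne hab with h | h
  · exact hx a b h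
  · rw [(lex A).adj_comm, H.adj_comm]; exact hx b a h

theorem measurableSet_EE {k : ℕ} (H : SimpleGraph (Fin k)) : MeasurableSet (EE A H) := by
  have : EE A H = ⋂ a, ⋂ b, {x : Fin k → I | a < b → ((lex A).Adj (x a) (x b) ↔ H.Adj a b)} := by
    ext x; simp [EE]
  rw [this]
  refine MeasurableSet.iInter fun a => MeasurableSet.iInter fun b => ?_
  have hm : MeasurableSet {x : Fin k → I | (lex A).Adj (x a) (x b)} :=
    (show Measurable fun x : Fin k → I => (x a, x b) from
      (measurable_pi_apply a).prodMk (measurable_pi_apply b)) (measurableSet_lex A)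
  by_cases h1 : a < b
  · by_cases h2 : H.Adj a b
    · simpa [h1, h2] using hm
    · convert hm.compl using 1
      ext x
      simp [h1, h2]
  · simp [h1]

theorem tInd_lexW (μ : Measure I) {k : ℕ} (H : SimpleGraph (Fin k)) :
    tInd μ (lexW A) H = (Measure.pi fun _ : Fin k => μ).real (EE A H) := by
  rw [← integral_indicator_one (measurableSet_EE H)]
  unfold tInd
  congr 1
  funext x
  by_cases hx : x ∈ EE A H
  · rw [Set.indicator_of_mem hx, Pi.one_apply]
    apply prod_eq_one
    intro p hp
    have := hx p.1 p.2 (mem_filter.1 hp).2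
    by_cases h : H.Adj p.1 p.2
    · simp [lexW, h, this]
    · simp [lexW, h, this]
  · rw [Set.indicator_of_notMem hx]
    simp only [EE, Set.mem_ofPred_eq, not_forall] at hx
    obtain ⟨a, b, hab, h⟩ := hx
    apply prod_eq_zero (i := (a, b)) (mem_filter.2 ⟨mem_univ _, hab⟩)
    by_cases h' : H.Adj a b
    · have : ¬ (lex A).Adj (x a) (x b) := by tauto
      simp [lexW, h', this]
    · have : (lex A).Adj (x a) (x b) := by tauto
      simp [lexW, h', this]

def cell (t j : ℕ) : Set I := {x | cc t (x : ℝ) = j}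

theorem measurableSet_cell (t j : ℕ) : MeasurableSet (cell t j) :=
  measurable_cc t (measurableSet_singleton j)

theorem volume_cell (t j : ℕ) (hj : j < NN t) :
    volume (cell t j) = ENNReal.ofReal (1 / NN t) := by
  have hN : (0 : ℝ) < NN t := by have := NN_pos t; positivity
  have hj' : (j : ℝ) + 1 ≤ NN t := by exact_mod_cast hj
  rw [unitInterval.volume_apply]
  have : Subtype.val '' cell t j = Set.Ico ((j : ℝ) / NN t) (((j : ℝ) + 1) / NN t) := by
    ext y
    constructor
    · rintro ⟨x, hx, rfl⟩
      have h0 : 0 ≤ (NN t : ℝ) * x := mul_nonneg hN.le x.2.1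
      have := (Nat.floor_eq_iff h0).1 hx
      refine ⟨?_, ?_⟩
      · rw [div_le_iff₀ hN]; linarith [this.1]
      · rw [lt_div_iff₀ hN]; linarith [this.2]
    · rintro ⟨h1, h2⟩
      rw [div_le_iff₀ hN] at h1
      rw [lt_div_iff₀ hN] at h2
      have hy0 : 0 ≤ y := by
        by_contra hc
        have : y * NN t < 0 := mul_neg_of_neg_of_pos (by linarith) hN
        have : (0 : ℝ) ≤ j := by positivity
        linarith
      have hy1 : y ≤ 1 := by
        by_contra hc
        nlinarith
      refine ⟨⟨y, hy0, hy1⟩, ?_, rfl⟩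
      have h0 : 0 ≤ (NN t : ℝ) * y := mul_nonneg hN.le hy0
      exact (Nat.floor_eq_iff h0).2 ⟨by linarith, by linarith⟩
  rw [this, Real.volume_Ico]
  congr 1
  ring

def box (t : ℕ) {k : ℕ} (φ : Fin k ↪ Fin (NN t)) : Set (Fin k → I) :=
  Set.pi Set.univ fun a => cell t (φ a)

theorem measure_boxes (t : ℕ) {k : ℕ} (Φ : Finset (Fin k ↪ Fin (NN t))) :
    (Measure.pi fun _ : Fin k => (volume : Measure I)).real (⋃ φ ∈ Φ, box t φ) =
      (Φ.card : ℝ) / (NN t : ℝ) ^ k := by
  rw [measureReal_biUnion_finset]
  · have : ∀ φ ∈ Φ, (Measure.pi fun _ : Fin k => (volume : Measure I)).real (box t φ) =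
        (1 / (NN t : ℝ)) ^ k := by
      intro φ _
      rw [measureReal_def, box, Measure.pi_pi]
      simp only [volume_cell t _ (φ _).2, prod_const, card_univ, Fintype.card_fin]
      rw [ENNReal.toReal_pow, ENNReal.toReal_ofReal (by positivity)]
    rw [sum_congr rfl this]
    simp [div_eq_mul_inv]
  · intro φ _ ψ _ hne
    refine Set.disjoint_left.2 fun x hx hy => hne ?_
    ext a
    exact (hx a (Set.mem_univ a)).symm.trans (hy a (Set.mem_univ a))
  · intro φ _
    exact MeasurableSet.univ_pi fun a => measurableSet_cell _ _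

theorem box_adj {t k : ℕ} {φ : Fin k ↪ Fin (NN t)} {x : Fin k → I} (hx : x ∈ box t φ)
    {a b : Fin k} (hab : a ≠ b) : (lex A).Adj (x a) (x b) ↔ (grid A t).Adj (φ a) (φ b) := by
  have ha : cc t (x a) = φ a := hx a (Set.mem_univ a)
  have hb : cc t (x b) = φ b := hx b (Set.mem_univ b)
  have hne : (φ a : ℕ) ≠ φ b := fun e => hab (φ.injective (Fin.ext e))
  constructor
  · exact lex_adj_congr (t := t) (by rw [ha, cc_grid]) (by rw [hb, cc_grid]) (by rw [ha, hb]; exact hne)
  · exact lex_adj_congr (t := t) (by rw [ha, cc_grid]) (by rw [hb, cc_grid])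
      (by rw [cc_grid, cc_grid]; exact hne)

theorem tendsto_ratio (k : ℕ) :
    Tendsto (fun t => ((NN t).descFactorial k : ℝ) / (NN t : ℝ) ^ k) atTop (𝓝 1) := by
  have hN : Tendsto NN atTop atTop := tendsto_atTop_mono NN_ge tendsto_id
  have h := (Asymptotics.isEquivalent_iff_tendsto_one (l := atTop)
    (u := fun n : ℕ => (n.descFactorial k : ℝ)) (v := fun n : ℕ => (n : ℝ) ^ k) (by
      filter_upwards [eventually_gt_atTop 0] with n hn
      positivity)).1 (isEquivalent_descFactorial k)
  exact h.comp hN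

theorem tendsto_labelled {k : ℕ} (H : SimpleGraph (Fin k)) :
    Tendsto (fun t => ((univ.filter fun φ : Fin k ↪ Fin (NN t) => (grid A t).comap φ = H).card : ℝ) /
      ((NN t).descFactorial k : ℝ)) atTop (𝓝 (tInd volume (lexW A) H)) := by
  rw [tInd_lexW]
  set P := Measure.pi fun _ : Fin k => (volume : Measure I) with hP
  have hr := tendsto_ratio k
  have h1 : Tendsto (fun t => ((univ.filter fun φ : Fin k ↪ Fin (NN t) =>
      (grid A t).comap φ = H).card : ℝ) / (NN t : ℝ) ^ k) atTop (𝓝 (P.real (EE A H))) := by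
    have hlow : Tendsto (fun t => P.real (EE A H) -
        (1 - ((NN t).descFactorial k : ℝ) / (NN t : ℝ) ^ k)) atTop (𝓝 (P.real (EE A H))) := by
      have := (tendsto_const_nhds (x := P.real (EE A H))).sub ((tendsto_const_nhds (x := (1 : ℝ))).sub hr)
      simpa using this
    refine tendsto_of_tendsto_of_tendsto_of_le_of_le hlow tendsto_const_nhds
      (fun t => ?_) (fun t => ?_)
    · have hD := measure_boxes t (univ : Finset (Fin k ↪ Fin (NN t)))
      rw [card_univ, Fintype.card_embedding_eq, Fintype.card_fin, Fintype.card_fin] at hD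
      have hS := measure_boxes t (univ.filter fun φ : Fin k ↪ Fin (NN t) => (grid A t).comap φ = H)
      have hDm : MeasurableSet (⋃ φ ∈ (univ : Finset (Fin k ↪ Fin (NN t))), box t φ) :=
        Finset.measurableSet_biUnion _ fun φ _ => MeasurableSet.univ_pi fun a => measurableSet_cell _ _
      have hc := probReal_compl_eq_one_sub (μ := P) hDm
      have hsub : EE A H ⊆ (⋃ φ ∈ (univ.filter fun φ : Fin k ↪ Fin (NN t) =>
          (grid A t).comap φ = H), box t φ) ∪
          (⋃ φ ∈ (univ : Finset (Fin k ↪ Fin (NN t))), box t φ)ᶜ := by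
        intro x hx
        by_cases hx' : x ∈ ⋃ φ ∈ (univ : Finset (Fin k ↪ Fin (NN t))), box t φ
        · left
          simp only [Set.mem_iUnion] at hx' ⊢
          obtain ⟨φ, -, hφ⟩ := hx'
          refine ⟨φ, mem_filter.2 ⟨mem_univ _, ?_⟩, hφ⟩
          ext a b
          by_cases hab : a = b
          · subst hab; simp
          · rw [SimpleGraph.comap_adj, ← box_adj hφ hab, EE_ne hx hab]
        · exact Or.inr hx'
      have := (measureReal_mono (μ := P) hsub).trans (measureReal_union_le _ _)
      rw [hS, hc, hD] at this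
      simp only
      linarith
    · have hS := measure_boxes t (univ.filter fun φ : Fin k ↪ Fin (NN t) => (grid A t).comap φ = H)
      simp only
      rw [← hS]
      apply measureReal_mono _ (measure_ne_top _ _)
      intro x hx
      simp only [Set.mem_iUnion] at hx
      obtain ⟨φ, hφ, hx⟩ := hx
      intro a b hab
      rw [box_adj hx hab.ne, ← (mem_filter.1 hφ).2, SimpleGraph.comap_adj]
  have h2 := h1.div hr one_ne_zero
  rw [div_one] at h2
  refine h2.congr fun t => ?_
  have : (NN t : ℝ) ^ k ≠ 0 := by have := NN_pos t; positivity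
  simp only [Pi.div_apply]
  rw [div_div_div_cancel_right₀ this]

theorem isGraphonOf_lexW {F : GraphClass} (h : ∀ t, grid A t ∈ F (NN t)) :
    IsGraphonOf F (lexW A) := by
  refine ⟨NN, grid A, h, tendsto_atTop_mono NN_ge tendsto_id, fun k H => ?_⟩
  unfold pW
  refine (tendsto_finsetSum _ fun H' _ => tendsto_labelled H').congr fun t => ?_
  unfold pG
  rw [← sum_div, ← Nat.cast_sum]
  congr 2
  symm
  rw [card_eq_sum_card_fiberwise (f := fun φ : Fin k ↪ Fin (NN t) => (grid A t).comap φ)
    (t := univ.filter fun H' : SimpleGraph (Fin k) => Nonempty (H' ≃g H))]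
  · refine sum_congr rfl fun H' hH' => congrArg _ ?_
    ext φ
    simp only [mem_filter, mem_univ, true_and] at hH' ⊢
    exact ⟨fun h => h.2, fun h => ⟨h ▸ hH', h⟩⟩
  · intro φ hφ
    simpa using hφ

theorem exists_full_cell (S : Set I) (hS : 0 < volume S) :
    ∃ i j, ∀ r < i + 8, 0 < volume (S ∩ cell (i + 1) (j * (i + 8) + r)) := by
  by_contra hno
  push Not at hno
  let J : ℕ → Finset ℕ := fun i => (range (NN i)).filter fun j => 0 < volume (S ∩ cell i j)
  have hJ : ∀ i, (J (i + 1)).card ≤ (i + 7) * (J i).card := by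
    intro i
    apply card_le_mul_card_image_of_maps_to (f := fun j => j / (i + 8))
    · intro j hj
      obtain ⟨h1, h2⟩ := mem_filter.1 hj
      refine mem_filter.2 ⟨mem_range.2 ?_, lt_of_lt_of_le h2 (measure_mono ?_)⟩
      · exact (Nat.div_lt_iff_lt_mul (by omega)).2 (mem_range.1 h1)
      · rintro x ⟨hx1, hx2⟩
        refine ⟨hx1, ?_⟩
        have : cc (i + 1) (x : ℝ) = j := hx2
        show cc i (x : ℝ) = j / (i + 8)
        rw [cc_succ, this]
    · intro j _
      obtain ⟨r, hr, hr0⟩ := hno i j
      have : ((range (i + 8)).erase r).card = i + 7 := by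
        rw [card_erase_of_mem (mem_range.2 hr), card_range]; omega
      rw [← this]
      apply card_le_card_of_injOn (fun j' => j' % (i + 8))
      · intro j' hj'
        obtain ⟨h1, h2⟩ := mem_filter.1 (mem_coe.1 hj')
        refine mem_coe.2 (mem_erase.2 ⟨fun e => ?_, mem_range.2 (Nat.mod_lt _ (by omega))⟩)
        have h3 := (mem_filter.1 h1).2
        have : j' = j * (i + 8) + r := by
          rw [← h2, ← e, mul_comm]; exact (Nat.div_add_mod _ _).symm
        rw [this] at h3
        exact absurd h3 (not_lt.2 hr0)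
      · intro a ha b hb hab
        have h1 := (mem_filter.1 (mem_coe.1 ha)).2
        have h2 := (mem_filter.1 (mem_coe.1 hb)).2
        simp only at hab h1 h2
        rw [← Nat.div_add_mod a (i + 8), ← Nat.div_add_mod b (i + 8), h1, h2, hab]
  have hJ2 : ∀ i, (J i).card * (i + 7) ≤ 7 * NN i := by
    intro i
    induction i with
    | zero =>
      have : (J 0).card ≤ 1 := (card_filter_le _ _).trans (by simp [NN])
      simp only [NN]; omega
    | succ i ih =>
      have := hJ i
      simp only [NN]
      nlinarith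
  have hvol : ∀ i : ℕ, volume.real S ≤ 7 / ((i : ℝ) + 7) := by
    intro i
    have hN : (0 : ℝ) < NN i := by have := NN_pos i; positivity
    have hsub : S ⊆ (⋃ j ∈ range (NN i), S ∩ cell i j) ∪ {1} := by
      intro x hx
      by_cases h1 : x = 1
      · exact Or.inr h1
      · left
        simp only [Set.mem_iUnion]
        refine ⟨cc i x, mem_range.2 ?_, hx, rfl⟩
        have hx1 : (x : ℝ) < 1 := lt_of_le_of_ne x.2.2 fun e => h1 (Subtype.ext e)
        unfold cc
        rw [Nat.floor_lt (mul_nonneg hN.le x.2.1)]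
        nlinarith
    have h1 := (measureReal_mono (μ := volume) hsub).trans (measureReal_union_le _ _)
    have h2 : volume.real ({1} : Set I) = 0 := by simp [measureReal_def]
    have h3 := measureReal_biUnion_finset_le (μ := (volume : Measure I)) (range (NN i))
      fun j => S ∩ cell i j
    have h4 : ∑ j ∈ range (NN i), volume.real (S ∩ cell i j) ≤ (J i).card * (1 / (NN i : ℝ)) := by
      rw [← sum_filter_add_sum_filter_not (range (NN i)) fun j => 0 < volume (S ∩ cell i j)]
      have e1 : ∑ j ∈ (range (NN i)).filter (fun j => ¬ 0 < volume (S ∩ cell i j)),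
          volume.real (S ∩ cell i j) = 0 := by
        apply sum_eq_zero
        intro j hj
        have := (mem_filter.1 hj).2
        rw [measureReal_def, nonpos_iff_eq_zero.1 (not_lt.1 this)]
        simp
      rw [e1, add_zero, ← nsmul_eq_mul]
      apply sum_le_card_nsmul
      intro j hj
      refine (measureReal_mono (μ := volume) Set.inter_subset_right).trans ?_
      rw [measureReal_def, volume_cell i j (mem_range.1 (mem_filter.1 hj).1),
        ENNReal.toReal_ofReal (by positivity)]
    have h5 : ((J i).card : ℝ) * ((i : ℝ) + 7) ≤ 7 * NN i := by exact_mod_cast hJ2 i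
    have h6 : ((J i).card : ℝ) * (1 / (NN i : ℝ)) ≤ 7 / ((i : ℝ) + 7) := by
      rw [mul_one_div, div_le_div_iff₀ hN (by positivity)]
      exact h5
    linarith
  have hpos : 0 < volume.real S := ENNReal.toReal_pos hS.ne' (measure_ne_top _ _)
  obtain ⟨i, hi⟩ := exists_nat_gt (7 / volume.real S)
  have := hvol i
  rw [div_lt_iff₀ hpos] at hi
  rw [le_div_iff₀ (by positivity)] at this
  nlinarith

theorem not_weaklyRandom (hA : GoodSeq A) (S : Set I) (hSm : MeasurableSet S) (hS : 0 < volume S) :
    ¬ WeaklyRandom (cond volume S) (lexW A) := by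
  intro hW
  obtain ⟨i, j, hij⟩ := exists_full_cell S hS
  set ν := cond volume S with hν
  have : IsProbabilityMeasure ν := cond_isProbabilityMeasure hS.ne'
  have hν0 : ∀ r < i + 8, 0 < ν (cell (i + 1) (j * (i + 8) + r)) := fun r hr =>
    cond_pos_of_inter_ne_zero hSm (hij r hr).ne'
  let H : SimpleGraph (Fin (i + 8)) := (A i).comap Fin.val
  have hB := hν0 0 (by omega)
  set B := cell (i + 1) (j * (i + 8) + 0) with hBdef
  have hBm : MeasurableSet B := measurableSet_cell _ _
  have h1 : 0 < pW ν (lexW A) H := by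
    unfold pW
    refine lt_of_lt_of_le ?_ (single_le_sum (f := fun H' => tInd ν (lexW A) H')
      (fun H' _ => by rw [tInd_lexW]; exact measureReal_nonneg)
      (mem_filter.2 ⟨mem_univ H, ⟨SimpleGraph.Iso.refl⟩⟩))
    rw [tInd_lexW]
    refine ENNReal.toReal_pos (ne_of_gt (lt_of_lt_of_le ?_ (measure_mono
      (s := Set.pi Set.univ fun a : Fin (i + 8) => cell (i + 1) (j * (i + 8) + a)) ?_)))
      (measure_ne_top _ _)
    · rw [Measure.pi_pi]
      exact pos_iff_ne_zero.2 (prod_ne_zero_iff.2 fun a _ => (hν0 a a.2).ne')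
    · intro x hx a b hab
      have hc : ∀ c : Fin (i + 8), cc i (x c) = j ∧ dd i (x c) = c := by
        intro c
        have : cc (i + 1) (x c) = j * (i + 8) + c := hx c (Set.mem_univ c)
        refine ⟨?_, ?_⟩
        · rw [cc_succ, this, mul_comm, Nat.mul_add_div (by omega), Nat.div_eq_of_lt c.2, add_zero]
        · rw [dd, this, mul_comm, Nat.mul_add_mod, Nat.mod_eq_of_lt c.2]
      rw [lex_adj_level (l := i) (by rw [(hc a).1, (hc b).1])
        (by rw [(hc a).2, (hc b).2]; exact fun e => hab.ne (Fin.ext e)), (hc a).2, (hc b).2]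
      rfl
  have h2 : pW (cond ν B) (lexW A) H = 0 := by
    unfold pW
    apply sum_eq_zero
    intro H' hH'
    obtain ⟨e⟩ := (mem_filter.1 hH').2
    have : IsProbabilityMeasure (cond ν B) := cond_isProbabilityMeasure hB.ne'
    rw [tInd_lexW, measureReal_def]
    have hfull : (Measure.pi fun _ : Fin (i + 8) => cond ν B) (Set.pi Set.univ fun _ => B) = 1 := by
      rw [Measure.pi_pi]
      simp [cond_apply_self hB.ne' (measure_ne_top _ _)]
    have hnull := (prob_compl_eq_zero_iff (μ := Measure.pi fun _ : Fin (i + 8) => cond ν B)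
      (MeasurableSet.univ_pi fun _ => hBm)).2 hfull
    rw [measure_mono_null (fun x hx hxB => ?_) hnull]
    · simp
    · refine no_weak_copy hA i (fun c => if h : c < i + 8 then (x (e.symm ⟨c, h⟩) : ℝ) else 0)
        (fun a ha b hb => ?_) (fun a ha b hb hab => ?_)
      · simp only [ha, hb, dif_pos]
        exact (hxB _ (Set.mem_univ _)).trans (hxB _ (Set.mem_univ _)).symm
      · simp only [ha, hb, dif_pos]
        rw [EE_ne hx (fun e' => hab (congrArg Fin.val (e.symm.injective e'))),
          e.symm.map_adj_iff]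
        rfl
  have := (hW B hBm hB _ H).2 h1
  rw [h2] at this
  exact lt_irrefl _ this

theorem main (F : GraphClass) (hF : Hereditary F) (hW : InWR F) : EHP F := by
  by_contra hE
  have hE' : ¬ EH fun n G _ => G ∈ F n := by
    rintro ⟨d, hd⟩
    refine hE ⟨1 / ((d : ℝ) + 1), by positivity, fun n G hG => ?_⟩
    by_cases hn : n ≤ 1
    · refine ⟨univ, homog_of_card_le_one G univ (by simpa using hn), ?_⟩
      rw [card_univ, Fintype.card_fin]
      rcases Nat.le_one_iff_eq_zero_or_eq_one.1 hn with rfl | rfl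
      · rw [Nat.cast_zero, Real.zero_rpow (by positivity)]
      · simp
    obtain ⟨s, -, hs, hc⟩ := hd n G univ hG
    refine ⟨s, hs, ?_⟩
    rw [card_univ, Fintype.card_fin] at hc
    have hs0 : s.card ≠ 0 := by
      intro e
      rw [e] at hc
      have : 0 ^ d ≤ 1 ^ d := Nat.pow_le_pow_left (by omega) d
      rw [one_pow] at this
      omega
    have hc' : n ≤ s.card ^ (d + 1) := hc.trans (Nat.pow_le_pow_right (by omega) (by omega))
    have hc'' : (n : ℝ) ≤ (s.card : ℝ) ^ (d + 1) := by exact_mod_cast hc'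
    calc (n : ℝ) ^ (1 / ((d : ℝ) + 1)) ≤ ((s.card : ℝ) ^ (d + 1)) ^ (1 / ((d : ℝ) + 1)) :=
          Real.rpow_le_rpow (by positivity) hc'' (by positivity)
      _ = s.card := by
          rw [one_div, ← Nat.cast_succ]
          exact Real.pow_rpow_inv_natCast (by positivity) (by omega)
  obtain ⟨P, A, hP, hPE, hPF, hA, hG⟩ := exists_goodSeq _ (fun _ _ _ _ _ h => h) hE'
  obtain ⟨S, hSm, hS, hR⟩ := hW (lexW A) (isGraphonOf_lexW (grid_mem hF hP hPE hPF hG))
  exact not_weaklyRandom hA S hSm hS hR

end Pool.Agent.H7Z.WR
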