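import Pool.Agent.H7Z.WR.Blocks

set_option autoImplicit false

namespace Pool.Agent.H7Z.WR

open Finset
open scoped Classical

/-- The path `0 - 1 - … - (i+5)` with a leaf `i+6` attached to `2` and a leaf `i+7` attached to
`i+3`. -/
def hook (i : ℕ) : SimpleGraph ℕ where
  Adj a b := (a < i + 6 ∧ b < i + 6 ∧ (a + 1 = b ∨ b + 1 = a)) ∨ (a = i + 6 ∧ b = 2) ∨
    (b = i + 6 ∧ a = 2) ∨ (a = i + 7 ∧ b = i + 3) ∨ (b = i + 7 ∧ a = i + 3)
  symm := ⟨fun _ _ h => by omega⟩
  loopless := ⟨fun _ h => by omega⟩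

theorem hook_adj (i a b : ℕ) : (hook i).Adj a b ↔
    (a < i + 6 ∧ b < i + 6 ∧ (a + 1 = b ∨ b + 1 = a)) ∨ (a = i + 6 ∧ b = 2) ∨
    (b = i + 6 ∧ a = 2) ∨ (a = i + 7 ∧ b = i + 3) ∨ (b = i + 7 ∧ a = i + 3) := Iff.rfl

def IsPrime (A : SimpleGraph ℕ) (b : ℕ) : Prop :=
  ∀ M : Set ℕ, (∀ x < b, x ∉ M → ∀ a < b, ∀ a' < b, a ∈ M → a' ∈ M → (A.Adj a x ↔ A.Adj a' x)) →
    ∀ a < b, ∀ a' < b, a ∈ M → a' ∈ M → a ≠ a' → ∀ x < b, x ∈ M

structure GoodSeq (A : ℕ → SimpleGraph ℕ) : Prop where
  prime : ∀ i, IsPrime (A i) (i + 8)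
  anti : ∀ i l, i < l → ¬ Cont (A l) (range (l + 8)) (A i) (range (i + 8))
  edge : ∀ i, ∃ a < i + 8, ∃ a' < i + 8, (A i).Adj a a'

theorem hook_conn (i : ℕ) (M : Set ℕ)
    (h : ∀ a < i + 8, ∀ x < i + 8, (hook i).Adj a x → a ∈ M → x ∈ M) :
    ∀ j < i + 8, (j ∈ M ↔ 0 ∈ M) := by
  intro j
  induction j using Nat.strong_induction_on with
  | _ j ih =>
    intro hj
    rcases Nat.eq_zero_or_pos j with e | e
    · rw [e]
    · obtain ⟨p, hp, hadj⟩ : ∃ p < j, (hook i).Adj p j := by
        by_cases h1 : j < i + 6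
        · exact ⟨j - 1, by omega, by rw [hook_adj]; omega⟩
        · by_cases h2 : j = i + 6
          · exact ⟨2, by omega, by rw [hook_adj]; omega⟩
          · exact ⟨i + 3, by omega, by rw [hook_adj]; omega⟩
      rw [← ih p hp (by omega)]
      exact ⟨h j hj p (by omega) hadj.symm, h p (by omega) j hj hadj⟩

theorem hook_prime (i : ℕ) : IsPrime (hook i) (i + 8) := by
  intro M hM a ha a' ha' haM ha'M hne x hx
  by_contra hxM
  obtain ⟨c, hc, z, hz, hcz, hcM, hzM⟩ : ∃ c < i + 8, ∃ z < i + 8,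
      (hook i).Adj c z ∧ c ∈ M ∧ z ∉ M := by
    by_contra hno
    push Not at hno
    have := hook_conn i M hno
    exact hxM ((this x hx).2 ((this a ha).1 haM))
  have hall : ∀ u < i + 8, u ∈ M → (hook i).Adj u z := fun u hu huM =>
    (hM z hz hzM u hu c hc huM hcM).2 hcz
  have leaf : ∀ u < i + 8, ∀ u' < i + 8, u ∈ M → u' ∈ M → u ≠ u' →
      ∀ w < i + 8, (hook i).Adj u w → w = z := by
    intro u hu u' hu' huM hu'M huu w hw huw
    have h1 := hall u hu huM
    by_cases hwM : w ∈ M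
    · have h2 := hall w hw hwM
      rw [hook_adj] at h1 h2 huw
      omega
    · have h2 := (hM w hw hwM u hu u' hu' huM hu'M).1 huw
      have h3 := hall u' hu' hu'M
      rw [hook_adj] at h1 h2 h3 huw
      omega
  have l1 := leaf a ha a' ha' haM ha'M hne
  have l2 := leaf a' ha' a ha ha'M haM hne.symm
  have h1 := hall a ha haM
  have h2 := hall a' ha' ha'M
  have k1 : a = 0 ∨ i + 5 ≤ a := by
    by_contra hc
    have e1 := l1 (a - 1) (by omega) (by rw [hook_adj]; omega)
    have e2 := l1 (a + 1) (by omega) (by rw [hook_adj]; omega)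
    omega
  have k2 : a' = 0 ∨ i + 5 ≤ a' := by
    by_contra hc
    have e1 := l2 (a' - 1) (by omega) (by rw [hook_adj]; omega)
    have e2 := l2 (a' + 1) (by omega) (by rw [hook_adj]; omega)
    omega
  rw [hook_adj] at h1 h2
  omega

theorem hook_anti (i l : ℕ) (hil : i < l) :
    ¬ Cont (hook l) (range (l + 8)) (hook i) (range (i + 8)) := by
  rintro ⟨f, hf1, hf2, hf3⟩
  simp only [mem_range] at hf1 hf2 hf3
  have branch : ∀ v a b c : ℕ, (hook l).Adj v a → (hook l).Adj v b → (hook l).Adj v c →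
      a ≠ b → a ≠ c → b ≠ c → v = 2 ∨ v = l + 3 := by
    intro v a b c h1 h2 h3 h4 h5 h6
    rw [hook_adj] at h1 h2 h3
    omega
  have adj : ∀ a < i + 8, ∀ b < i + 8, (hook i).Adj a b → (hook l).Adj (f a) (f b) :=
    fun a ha b hb h => (hf3 a ha b hb).2 h
  have ne : ∀ a < i + 8, ∀ b < i + 8, a ≠ b → f a ≠ f b :=
    fun a ha b hb h e => h (hf2 a ha b hb e)
  have b1 := branch (f 2) (f 1) (f 3) (f (i + 6))
    (adj _ (by omega) _ (by omega) (by rw [hook_adj]; omega))
    (adj _ (by omega) _ (by omega) (by rw [hook_adj]; omega))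
    (adj _ (by omega) _ (by omega) (by rw [hook_adj]; omega))
    (ne _ (by omega) _ (by omega) (by omega)) (ne _ (by omega) _ (by omega) (by omega))
    (ne _ (by omega) _ (by omega) (by omega))
  have b2 := branch (f (i + 3)) (f (i + 2)) (f (i + 4)) (f (i + 7))
    (adj _ (by omega) _ (by omega) (by rw [hook_adj]; omega))
    (adj _ (by omega) _ (by omega) (by rw [hook_adj]; omega))
    (adj _ (by omega) _ (by omega) (by rw [hook_adj]; omega))
    (ne _ (by omega) _ (by omega) (by omega)) (ne _ (by omega) _ (by omega) (by omega))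
    (ne _ (by omega) _ (by omega) (by omega))
  have b3 := ne 2 (by omega) (i + 3) (by omega) (by omega)
  let pos : ℕ → ℕ := fun v => if v = l + 6 then 2 else if v = l + 7 then l + 3 else v
  have hpos : ∀ u v, (hook l).Adj u v → pos u ≤ pos v + 1 := by
    intro u v h
    rw [hook_adj] at h
    simp only [pos]
    split_ifs <;> omega
  have walk : ∀ t ≤ i + 1, pos (f (2 + t)) ≤ pos (f 2) + t ∧ pos (f 2) ≤ pos (f (2 + t)) + t := by
    intro t
    induction t with
    | zero => intro _; simp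
    | succ t ih =>
      intro ht
      have h0 := ih (by omega)
      have h1 := adj (2 + t) (by omega) (2 + (t + 1)) (by omega) (by rw [hook_adj]; omega)
      have h2 := hpos _ _ h1
      have h3 := hpos _ _ h1.symm
      omega
  have := walk (i + 1) le_rfl
  have e : 2 + (i + 1) = i + 3 := by omega
  rw [e] at this
  have p1 : pos 2 = 2 := by simp only [pos]; split_ifs <;> omega
  have p2 : pos (l + 3) = l + 3 := by simp only [pos]; split_ifs <;> omega
  rcases b1 with b1 | b1 <;> rcases b2 with b2 | b2 <;> rw [b1, b2] at this b3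
  · exact b3 rfl
  · omega
  · omega
  · exact b3 rfl

theorem goodSeq_hook : GoodSeq hook :=
  ⟨hook_prime, hook_anti, fun i => ⟨0, by omega, 1, by omega, by rw [hook_adj]; omega⟩⟩

theorem goodSeq_compl : GoodSeq fun i => (hook i)ᶜ := by
  refine ⟨fun i M hM => hook_prime i M fun x hx hxM a ha a' ha' haM ha'M => ?_,
    fun i l hil h => hook_anti i l hil ?_, fun i => ⟨0, by omega, 2, by omega, ?_⟩⟩
  · have := hM x hx hxM a ha a' ha' haM ha'M
    simp only [SimpleGraph.compl_adj] at this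
    have e1 : a ≠ x := fun e => hxM (e ▸ haM)
    have e2 : a' ≠ x := fun e => hxM (e ▸ ha'M)
    constructor
    · intro h
      by_contra h'
      exact (this.2 ⟨e2, h'⟩).2 h
    · intro h
      by_contra h'
      exact (this.1 ⟨e1, h'⟩).2 h
  · simpa using h.compl
  · simp only [SimpleGraph.compl_adj, hook_adj]
    omega

theorem hook_in_comb (i t : ℕ) (ht : 2 * i + 12 ≤ t) :
    Cont comb (range (t + 1)) (hook i) (range (i + 8)) := by
  refine ⟨fun v => if v = i + 6 then 4 else if v = i + 7 then 2 * i + 6 else 2 * v - 1,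
    fun a ha => ?_, fun a ha b hb => ?_, fun a ha b hb => ?_⟩
  · simp only [mem_range] at ha ⊢
    split_ifs <;> omega
  · simp only [mem_range] at ha hb ⊢
    split_ifs <;> omega
  · simp only [mem_range] at ha hb
    simp only [comb_adj, hook_adj, par]
    split_ifs <;> omega

/-- A hereditary class without the Erdős–Hajnal property has a subclass without it, relative to
which all members of an antichain of prime graphs have the property. -/
theorem exists_goodSeq (P : PClass) (hP : Down P) (hE : ¬ EH P) :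
    ∃ (P' : PClass) (A : ℕ → SimpleGraph ℕ), Down P' ∧ ¬ EH P' ∧ (∀ n G U, P' n G U → P n G U) ∧
      GoodSeq A ∧ ∀ i, Good P' (A i) (range (i + 8)) := by
  by_cases h : ∀ i, Good P (hook i) (range (i + 8))
  · exact ⟨P, hook, hP, hE, fun _ _ _ h => h, goodSeq_hook, h⟩
  · push Not at h
    obtain ⟨j, hj⟩ := h
    have hD : Down fun n G U => P n G U ∧ ¬ Cont G U (hook j) (range (j + 8)) :=
      fun n G U U' hU h => ⟨hP n G U U' hU h.1, fun hc => h.2 (hc.mono hU)⟩
    refine ⟨fun n G U => P n G U ∧ ¬ Cont G U (hook j) (range (j + 8)), fun i => (hook i)ᶜ,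
      hD, hj, fun _ _ _ h => h.1, goodSeq_compl, fun i => ?_⟩
    obtain ⟨q, hq⟩ := pure_of_comb_free (2 * (i + j) + 12)
    refine eh_of_pure (fun n G U U' hU h => ⟨hD n G U U' hU h.1, fun hc => h.2 (hc.mono hU)⟩) q
      fun n G U h hU => hq n G U (fun hc => h.1.2 (hc.trans (hook_in_comb j _ (by omega))))
        (fun hc => h.2 ?_) hU
    simpa using (hc.trans (hook_in_comb i _ (by omega))).compl

end Pool.Agent.H7Z.WR
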